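import Pool.Agent.Y882.GX.Blk2

/-! Almost primes `n - p`, all scales of `p`, all but few even numbers `n ≤ X`. -/

set_option autoImplicit false

namespace Pool.Agent.Y882.GX

open Finset Filter
open Pool.Agent.W23.DC
open Pool.Agent.Y882
open Pool.Agent.Y882.PX
open Pool.Agent.Y882.KW
open Pool.Agent.Y882.SI
open Pool.Agent.Y882.GW

/-- the admissible parameters: number of prime factors, level, sifting level -/
def Par (r : ℕ) (τ ζ : ℝ) : Prop :=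
  (r = 3 ∧ 1 / 2 ≤ τ ∧ ζ = 2 / 5 * τ) ∨ (r = 2 ∧ 6 / 11 ≤ τ ∧ ζ = τ / 4)

open Classical in
/-- all windows, numerical parameters -/
theorem blkPar (r : ℕ) (θ τ ζ ε : ℝ) (hpar : Par r τ ζ)
    (hτ : τ < 1) (hθ0 : 0 < θ) (hθ1 : θ ≤ 1) (hε : 0 < ε) :
    ∃ δ : ℝ, 0 < δ ∧ ∃ Y0 : ℕ, ∀ Y : ℕ, Y0 ≤ Y →
      (((Ioc Y (2 * Y)).filter (fun n => Even n ∧ ∃ j : ℕ, (Y : ℝ) ^ θ ≤ 2 ^ j ∧ (2 : ℝ) ^ j ≤ Y ∧
        ((gp r (2 ^ j) ((Y : ℝ) ^ ζ) n).card : ℝ) <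
        δ * 2 ^ j / Real.log Y ^ 2 * sgs n)).card : ℝ) ≤
      (Y : ℝ) ^ (2 * τ - θ + ε) := by
  have hτ2 : 1 / 2 ≤ τ := by
    rcases hpar with ⟨_, h, _⟩ | ⟨_, h, _⟩ <;> linarith
  have hζ0 : 0 < ζ := by
    rcases hpar with ⟨_, _, h⟩ | ⟨_, _, h⟩ <;> rw [h] <;> linarith
  have hζτ : 2 * ζ < τ := by
    rcases hpar with ⟨_, _, h⟩ | ⟨_, _, h⟩ <;> rw [h] <;> linarith
  rcases hpar with ⟨hr, h1, h2⟩ | ⟨hr, h1, h2⟩
  · have hJ := Pool.Agent.Y882.KW.cond_B τ (20 / 31) (by linarith) (by norm_num) (by norm_num)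
    rw [← h2] at hJ
    refine blkAll r θ τ ζ (9 / 10 * τ) (20 / 31) (1001 / 1000) hθ0 hθ1 hζ0
      hζτ (by rw [h2]; linarith) hτ2 hτ (by rw [h2]; linarith) (by linarith) (by norm_num) hJ
      (by norm_num) ?_ ε hε
    rw [hr]
    have h3 : (1001 / 1000 : ℝ) / (9 / 10 * τ) ≤ 2225 / 1000 := by
      rw [div_le_iff₀ (by linarith)]
      linarith
    push_cast
    norm_num at h3 ⊢
    linarith
  · have hJ := Pool.Agent.Y882.KW.cond_C τ (80 / 77) (by linarith) (by norm_num) (by norm_num)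
    rw [← h2] at hJ
    refine blkAll r θ τ ζ (9 / 10 * τ) (80 / 77) (10002 / 10000) hθ0 hθ1 hζ0
      hζτ (by rw [h2]; linarith) hτ2 hτ (by rw [h2]; linarith) (by linarith) (by norm_num) hJ
      (by norm_num) ?_ ε hε
    rw [hr]
    have h3 : (10002 / 10000 : ℝ) / (9 / 10 * τ) ≤ 20375 / 10000 := by
      rw [div_le_iff₀ (by linarith)]
      linarith
    push_cast
    norm_num at h3 ⊢
    linarith

open Classical in
/-- the number of the primes `p < N` with `x / 4 < p < x` such that `N - p` has at most `r`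
prime factors, all of them at least `N ^ ζ / 2` -/
noncomputable def inWindow (r : ℕ) (ζ x : ℝ) (N : ℕ) : ℕ :=
  ((range N).filter (fun p : ℕ => p.Prime ∧ x / 4 < p ∧ (p : ℝ) < x ∧
    (N - p).primeFactorsList.length ≤ r ∧
    ∀ q : ℕ, q.Prime → q ∣ (N - p) → (N : ℝ) ^ ζ / 2 ≤ q)).card

theorem Par.ζ_pos {r : ℕ} {τ ζ : ℝ} (h : Par r τ ζ) : 0 < ζ := by
  rcases h with ⟨_, _, h⟩ | ⟨_, _, h⟩ <;> rw [h] <;> linarith

theorem Par.ζ_le {r : ℕ} {τ ζ : ℝ} (h : Par r τ ζ) (hτ : τ < 1) : ζ ≤ 1 := by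
  rcases h with ⟨_, _, h⟩ | ⟨_, _, h⟩ <;> rw [h] <;> linarith

theorem gp_le_inWindow (r : ℕ) (ζ x y : ℝ) (hζ0 : 0 ≤ ζ) (hζ1 : ζ ≤ 1) (Y n : ℕ) (hY : 1 ≤ Y)
    (h2 : Y < n) (h3 : n ≤ 2 * Y) (hyx : y ≤ x) (hxy : x < 2 * y) (hyY : y ≤ Y) :
    (gp r y ((Y : ℝ) ^ ζ) n).card ≤ inWindow r ζ x n := by
  classical
  have h12 : (n : ℝ) ≤ 2 * Y := by exact_mod_cast h3
  have h13 : (Y : ℝ) < n := by exact_mod_cast h2
  have hYw : 0 ≤ (Y : ℝ) ^ ζ := by positivity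
  have h2ζ : (n : ℝ) ^ ζ ≤ 2 * (Y : ℝ) ^ ζ := by
    calc (n : ℝ) ^ ζ ≤ (2 * (Y : ℝ)) ^ ζ := Real.rpow_le_rpow (by positivity) h12 hζ0
      _ = 2 ^ ζ * (Y : ℝ) ^ ζ := Real.mul_rpow (by norm_num) (by positivity)
      _ ≤ 2 * (Y : ℝ) ^ ζ := by
          apply mul_le_mul_of_nonneg_right _ hYw
          calc (2 : ℝ) ^ ζ ≤ 2 ^ (1 : ℝ) :=
                Real.rpow_le_rpow_of_exponent_le (by norm_num) hζ1
            _ = 2 := Real.rpow_one _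
  unfold gp inWindow
  apply card_le_card
  intro p hp
  rw [mem_filter] at hp ⊢
  obtain ⟨-, h8, h8', h9, h10, h11⟩ := hp
  have h14 : (p : ℝ) < n := h9.trans_le (hyY.trans h13.le)
  refine ⟨mem_range.2 (by exact_mod_cast h14), h8, by linarith, by linarith, h10,
    fun q hq hqn => ?_⟩
  have := h11 q hq hqn
  linarith

open Classical in
/-- **Every scale.** -/
theorem everyScale (r : ℕ) (θ τ ζ ε : ℝ) (hpar : Par r τ ζ)
    (hτ : τ < 1) (hθ0 : 0 < θ) (hθ1 : θ ≤ 1) (hε : 0 < ε) :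
    ∃ δ C : ℝ, 0 < δ ∧ 0 < C ∧ ∀ X : ℕ, 1 ≤ X →
      (((Icc 1 X).filter (fun N : ℕ => Even N ∧ ∃ x : ℝ, (N : ℝ) ^ θ ≤ x ∧ x ≤ N / 2 ∧
        (inWindow r ζ x N : ℝ) < δ * sgs N * (x / Real.log N ^ 2))).card : ℝ) ≤
      C * (X : ℝ) ^ (2 * τ - θ + ε) := by
  have hζ0 : 0 < ζ := hpar.ζ_pos
  have hζ1 : ζ ≤ 1 := hpar.ζ_le hτ
  have hτ2 : 1 / 2 ≤ τ := by
    rcases hpar with ⟨_, h, _⟩ | ⟨_, h, _⟩ <;> linarith
  set κ : ℝ := min (ε / 2) (θ / 2) with hκ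
  have hκ0 : 0 < κ := lt_min (by linarith) (by linarith)
  have hκε : κ ≤ ε / 2 := min_le_left _ _
  have hκθ : κ ≤ θ / 2 := min_le_right _ _
  obtain ⟨δ, hδ, Y0, H⟩ := blkPar r (θ - κ) τ ζ (ε / 2) hpar hτ (by linarith) (by linarith)
    (by linarith)
  have ev1 : ∀ᶠ Y : ℕ in atTop, (2 : ℝ) ≤ (Y : ℝ) ^ κ :=
    ((tendsto_rpow_atTop hκ0).comp tendsto_natCast_atTop_atTop).eventually_ge_atTop _
  obtain ⟨Y1, hY1⟩ := eventually_atTop.1 ev1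
  obtain ⟨C, hC, hcum⟩ := Pool.Agent.Y882.cum (fun N : ℕ => Even N ∧ ∃ x : ℝ, (N : ℝ) ^ θ ≤ x ∧
    x ≤ N / 2 ∧ (inWindow r ζ x N : ℝ) < δ / 2 * sgs N * (x / Real.log N ^ 2))
    (2 * τ - θ + ε) (by linarith)
    (max (max Y0 Y1) 3) (by
    intro Y hY
    have hY0 : Y0 ≤ Y := ((le_max_left _ _).trans (le_max_left _ _)).trans hY
    have e1 := hY1 Y (((le_max_right _ _).trans (le_max_left _ _)).trans hY)
    have hY3 : 3 ≤ Y := (le_max_right _ _).trans hY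
    have hYr : (3 : ℝ) ≤ Y := by exact_mod_cast hY3
    have hYp : (0 : ℝ) < Y := by linarith
    have hlY : 0 < Real.log Y := Real.log_pos (by linarith)
    refine le_trans ?_ ((H Y hY0).trans (Real.rpow_le_rpow_of_exponent_le (by linarith)
      (by linarith)))
    apply Nat.cast_le.2
    apply card_le_card
    intro n hn
    rw [mem_filter, mem_Ioc] at hn ⊢
    obtain ⟨⟨h2, h3⟩, h4, x, hx1, hx2, h5⟩ := hn
    refine ⟨⟨h2, h3⟩, h4, ?_⟩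
    have h12 : (n : ℝ) ≤ 2 * Y := by exact_mod_cast h3
    have h13 : (Y : ℝ) < n := by exact_mod_cast h2
    have hn0 : (0 : ℝ) < n := by linarith
    have h3θ : (Y : ℝ) ^ θ ≤ (n : ℝ) ^ θ :=
      Real.rpow_le_rpow (by positivity) h13.le (by linarith)
    have hYθ1 : 1 ≤ (Y : ℝ) ^ θ := Real.one_le_rpow (by linarith) hθ0.le
    have hx1' : 1 ≤ x := by linarith
    have hx0 : 0 < x := by linarith
    -- the power of two
    set j := Nat.log 2 ⌊x⌋₊ with hj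
    have hfl : ⌊x⌋₊ ≠ 0 := by
      have : 1 ≤ ⌊x⌋₊ := Nat.le_floor (by push_cast; exact hx1')
      omega
    have hj1 : (2 : ℝ) ^ j ≤ x := by
      have h6 : 2 ^ j ≤ ⌊x⌋₊ := Nat.pow_log_le_self 2 hfl
      calc (2 : ℝ) ^ j = ((2 ^ j : ℕ) : ℝ) := by push_cast; rfl
        _ ≤ (⌊x⌋₊ : ℝ) := by exact_mod_cast h6
        _ ≤ x := Nat.floor_le hx0.le
    have hj2 : x < 2 * (2 : ℝ) ^ j := by
      have h6 : ⌊x⌋₊ < 2 ^ (j + 1) := Nat.lt_pow_succ_log_self (by norm_num) _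
      have h7 : x < ((2 ^ (j + 1) : ℕ) : ℝ) := (Nat.floor_lt hx0.le).1 h6
      rw [pow_succ] at h7
      push_cast at h7
      linarith
    have hjY : (2 : ℝ) ^ j ≤ Y := by linarith
    refine ⟨j, ?_, hjY, ?_⟩
    · have h8 : (Y : ℝ) ^ θ = (Y : ℝ) ^ κ * (Y : ℝ) ^ (θ - κ) := by
        rw [← Real.rpow_add hYp]
        congr 1
        ring
      have h9 : 2 * (Y : ℝ) ^ (θ - κ) ≤ (Y : ℝ) ^ θ := by
        rw [h8]
        exact mul_le_mul_of_nonneg_right e1 (by positivity)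
      linarith
    · have h6 := gp_le_inWindow r ζ x ((2 : ℝ) ^ j) hζ0.le hζ1 Y n (by omega) h2 h3 hj1 hj2 hjY
      have h7 : ((gp r ((2 : ℝ) ^ j) ((Y : ℝ) ^ ζ) n).card : ℝ) ≤ inWindow r ζ x n := by
        exact_mod_cast h6
      refine h7.trans_lt (h5.trans_le ?_)
      have hs1 : 1 ≤ sgs n := one_le_sgs n
      have h14 : Real.log Y ≤ Real.log n := Real.log_le_log (by linarith) h13.le
      have h15 : x / Real.log n ^ 2 ≤ 2 * (2 : ℝ) ^ j / Real.log Y ^ 2 := by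
        apply div_le_div₀ (by positivity) hj2.le (by positivity)
        exact pow_le_pow_left₀ hlY.le h14 2
      calc δ / 2 * sgs n * (x / Real.log n ^ 2) ≤
          δ / 2 * sgs n * (2 * (2 : ℝ) ^ j / Real.log Y ^ 2) :=
            mul_le_mul_of_nonneg_left h15 (by positivity)
        _ = δ * (2 : ℝ) ^ j / Real.log Y ^ 2 * sgs n := by ring)
  exact ⟨δ / 2, C, by positivity, hC, fun X hX => hcum X hX⟩

end Pool.Agent.Y882.GX
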