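import Pool.Agent.Y882.GX.Sq3

/-! Almost primes `n - p` with a small prime `p`: one block, all windows. -/

set_option autoImplicit false

namespace Pool.Agent.Y882.GX

open Finset Filter
open Pool.Agent.W23.DC
open Pool.Agent.Y882
open Pool.Agent.Y882.PX
open Pool.Agent.Y882.KW
open Pool.Agent.Y882.SI
open Pool.Agent.Y882.GW

open Classical in
/-- from positive weights to almost primes -/
theorem pass (r : ℕ) (θ ζ υ lam S δ s : ℝ) (hθ0 : 0 < θ) (hθ1 : θ ≤ 1) (hζ0 : 0 < ζ)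
    (hζυ : ζ ≤ υ) (hυ1 : υ ≤ 1) (hlam : 0 < lam) (hδ : 0 < δ) (hs0 : 0 < s) (hsζ : 2 * s ≤ ζ)
    (hS : 1 < S) (hr : 1 / lam + S / υ ≤ r + 1) :
    ∃ Y0 : ℕ, ∀ Y : ℕ, Y0 ≤ Y → ∀ x : ℝ, (Y : ℝ) ^ θ ≤ x → x ≤ Y →
      ∀ n : ℕ, Y < n → n ≤ 2 * Y →
      δ * x / Real.log Y ^ 2 * sgs n ≤ (GW.cnt x (WW Y ζ υ lam (lam / υ)) n : ℝ) →
      (((Icc 1 ⌊x⌋₊).filter (fun m => SBad Y (max ζ (θ - 2 * s)) υ n m)).card : ℝ) ≤
        (⌊x⌋₊ : ℝ) / (Y : ℝ) ^ s →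
      δ / 4 * x / Real.log Y ^ 2 * sgs n ≤ ((gp r x ((Y : ℝ) ^ ζ) n).card : ℝ) := by
  have hυ0 : 0 < υ := by linarith
  set ξ : ℝ := max ζ (θ - 2 * s) with hξ
  have hζξ : ζ ≤ ξ := le_max_left _ _
  have hξ0 : 0 < ξ := hζ0.trans_le hζξ
  have hξ1 : ξ ≤ 1 := max_le (by linarith) (by linarith)
  obtain ⟨Y3, HM⟩ := med2 ζ ξ hζ0 hξ1
  have ev1 := polylog (16 / δ) 2 s hs0
  have ev2 : ∀ᶠ Y : ℕ in atTop, (4 : ℝ) ≤ (Y : ℝ) ^ s :=
    ((tendsto_rpow_atTop hs0).comp tendsto_natCast_atTop_atTop).eventually_ge_atTop _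
  have ev3 : ∀ᶠ Y : ℕ in atTop, (2 : ℝ) ≤ (Y : ℝ) ^ (S - 1) :=
    ((tendsto_rpow_atTop (by linarith)).comp tendsto_natCast_atTop_atTop).eventually_ge_atTop _
  have ev5 : ∀ᶠ Y : ℕ in atTop, (4 : ℝ) ≤ (Y : ℝ) ^ θ :=
    ((tendsto_rpow_atTop hθ0).comp tendsto_natCast_atTop_atTop).eventually_ge_atTop _
  obtain ⟨Y4, hY4⟩ := eventually_atTop.1
    (ev1.and (ev2.and (ev3.and (ev5.and (eventually_ge_atTop 3)))))
  refine ⟨max Y3 Y4, ?_⟩
  intro Y hY x hYx hxY n hn1 hn2 g1 g2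
  obtain ⟨e1, e2, e3, e5, e6⟩ := hY4 Y ((le_max_right _ _).trans hY)
  have hY3 : Y3 ≤ Y := (le_max_left _ _).trans hY
  have hYr : (3 : ℝ) ≤ Y := by exact_mod_cast e6
  have hY0 : (0 : ℝ) < Y := by linarith
  have hY1r : (1 : ℝ) ≤ Y := by linarith
  have hlY : 0 < Real.log Y := Real.log_pos (by linarith)
  have hx0 : 0 < x := by linarith
  set X : ℕ := ⌊x⌋₊ with hX
  have hXx : (X : ℝ) ≤ x := Nat.floor_le hx0.le
  have hX1 : 1 ≤ X := Nat.le_floor (by push_cast; linarith)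
  have hXpos : (0 : ℝ) < X := by exact_mod_cast hX1
  have hxX : x ≤ 2 * X := by
    have h1 := Nat.lt_floor_add_one x
    rw [← hX] at h1
    have h2 : (1 : ℝ) ≤ X := by exact_mod_cast hX1
    linarith
  set t : ℝ := (Y : ℝ) ^ s with ht
  have ht0 : 0 < t := by positivity
  have g3 : (((Icc 1 X).filter (fun m => SBad Y ζ ξ n m)).card : ℝ) ≤ (X : ℝ) / t := by
    rcases le_or_gt (θ - 2 * s) ζ with hc | hc
    · have hξζ : ξ = ζ := max_eq_left hc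
      have : (Icc 1 X).filter (fun m => SBad Y ζ ξ n m) = ∅ := by
        apply filter_eq_empty_iff.2
        rintro m _ ⟨q, hq, _⟩
        unfold pr at hq
        rw [mem_filter, hξζ] at hq
        linarith [hq.2.2.1, hq.2.2.2]
      rw [this]
      simp only [card_empty, Nat.cast_zero]
      positivity
    · have hξθ : ξ = θ - 2 * s := max_eq_right hc.le
      refine (HM Y hY3 X n).trans ?_
      have h1 : (X : ℝ) * (2 / (Y : ℝ) ^ ζ) ≤ X / t / 2 := by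
        have h9 : t * t ≤ (Y : ℝ) ^ ζ := by
          rw [ht, ← Real.rpow_add hY0]
          exact Real.rpow_le_rpow_of_exponent_le hY1r (by linarith)
        have h10 : 4 * t ≤ (Y : ℝ) ^ ζ := (mul_le_mul_of_nonneg_right e2 ht0.le).trans h9
        rw [div_div, mul_div_assoc', div_le_div_iff₀ (by positivity) (by positivity)]
        calc (X : ℝ) * 2 * (t * 2) = X * (4 * t) := by ring
          _ ≤ X * (Y : ℝ) ^ ζ := mul_le_mul_of_nonneg_left h10 hXpos.le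
      have h2 : (Y : ℝ) ^ ξ ≤ X / t / 2 := by
        have h9 : (Y : ℝ) ^ θ = (Y : ℝ) ^ ξ * (t * t) := by
          rw [ht, ← Real.rpow_add hY0, ← Real.rpow_add hY0, hξθ]
          congr 1
          ring
        have h10 : (Y : ℝ) ^ ξ * (t * t) ≤ 2 * X := by rw [← h9]; exact hYx.trans hxX
        have h11 : (Y : ℝ) ^ ξ * (4 * t) ≤ 2 * X := by
          refine le_trans ?_ h10
          apply mul_le_mul_of_nonneg_left _ (by positivity)
          exact mul_le_mul_of_nonneg_right e2 ht0.le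
        rw [div_div, le_div_iff₀ (by positivity)]
        linarith
      linarith
  have hkey : GW.cnt x (WW Y ζ υ lam (lam / υ)) n ≤ (gp r x ((Y : ℝ) ^ ζ) n).card +
      (((Icc 1 X).filter (fun m => SBad Y ζ ξ n m)).card +
        ((Icc 1 X).filter (fun m => SBad Y ξ υ n m)).card) := by
    unfold GW.cnt
    have h7 : (Icc 1 ⌊x⌋₊).filter (fun p : ℕ => p.Prime ∧ x / 2 < p ∧ (p : ℝ) < x ∧
        0 < WW Y ζ υ lam (lam / υ) (n - p)) ⊆ gp r x ((Y : ℝ) ^ ζ) n ∪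
        ((Icc 1 X).filter (fun m => SBad Y ζ ξ n m) ∪ (Icc 1 X).filter (fun m => SBad Y ξ υ n m)) := by
      intro p hp
      rw [mem_filter] at hp
      obtain ⟨hp1, hp2, hp3, hp4, hp5⟩ := hp
      rw [mem_union, mem_union]
      by_cases hb : SBad Y ζ υ n p
      · right
        rcases sbad_split Y ζ ξ υ n p hb with h | h
        · left
          rw [mem_filter]
          exact ⟨hp1, h⟩
        · right
          rw [mem_filter]
          exact ⟨hp1, h⟩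
      · left
        have hpn : p < n := by
          have : (p : ℝ) < n := by
            have h8 : (Y : ℝ) < n := by exact_mod_cast hn1
            linarith
          exact_mod_cast this
        have hres := almost Y (by omega) ζ υ lam S r hζυ hυ0 hυ1 hlam hr (n - p)
          (by omega) (by
            have h8 : ((n - p : ℕ) : ℝ) ≤ 2 * Y := by
              have : n - p ≤ 2 * Y := by omega
              exact_mod_cast this
            refine h8.trans ?_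
            calc 2 * (Y : ℝ) ≤ (Y : ℝ) ^ (S - 1) * (Y : ℝ) ^ (1 : ℝ) := by
                  rw [Real.rpow_one]
                  exact mul_le_mul_of_nonneg_right e3 hY0.le
              _ = (Y : ℝ) ^ S := by
                  rw [← Real.rpow_add hY0]
                  congr 1
                  ring) hp5 (by
            intro q hq hqd
            apply hb
            refine ⟨q, hq, ?_⟩
            have h9 : ((n - p : ℕ) : ℤ) = (n : ℤ) - p := by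
              rw [Nat.cast_sub hpn.le]
            rw [← h9]
            exact_mod_cast hqd)
        unfold gp
        rw [mem_filter]
        exact ⟨hp1, hp2, hp3, hp4, hres.1, hres.2⟩
    refine (card_le_card h7).trans ((card_union_le _ _).trans ?_)
    exact Nat.add_le_add_left (card_union_le _ _) _
  have hkr : (GW.cnt x (WW Y ζ υ lam (lam / υ)) n : ℝ) ≤ ((gp r x ((Y : ℝ) ^ ζ) n).card : ℝ) +
      ((((Icc 1 X).filter (fun m => SBad Y ζ ξ n m)).card : ℝ) +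
        (((Icc 1 X).filter (fun m => SBad Y ξ υ n m)).card : ℝ)) := by exact_mod_cast hkey
  have hs1 := one_le_sgs n
  have hsm : (X : ℝ) / t ≤ δ / 4 * x / Real.log Y ^ 2 * sgs n := by
    calc (X : ℝ) / t ≤ x / t := div_le_div_of_nonneg_right hXx ht0.le
      _ ≤ δ / 4 * x / Real.log Y ^ 2 := by
          rw [div_le_div_iff₀ ht0 (by positivity)]
          have h8 : Real.log Y ^ 2 ≤ δ / 16 * t := by
            have h9 := mul_le_mul_of_nonneg_left e1 (show 0 ≤ δ / 16 by positivity)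
            calc Real.log Y ^ 2 = δ / 16 * (16 / δ * Real.log Y ^ 2) := by field_simp
              _ ≤ _ := h9
          calc x * Real.log Y ^ 2 ≤ x * (δ / 16 * t) := mul_le_mul_of_nonneg_left h8 hx0.le
            _ ≤ δ / 4 * x * t := by
                have : 0 < δ * x * t := by positivity
                nlinarith
      _ ≤ δ / 4 * x / Real.log Y ^ 2 * sgs n := le_mul_of_one_le_right (by positivity) hs1
  have h10 : 0 < δ * x / Real.log Y ^ 2 * sgs n :=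
    mul_pos (by positivity) (lt_of_lt_of_le one_pos hs1)
  have h11 : δ / 4 * x / Real.log Y ^ 2 * sgs n = δ * x / Real.log Y ^ 2 * sgs n / 4 := by ring
  rw [h11] at hsm ⊢
  linarith

open Classical in
/-- one window -/
theorem blk2 (r : ℕ) (θ τ ζ υ lam S : ℝ) (hθ0 : 0 < θ) (hθ1 : θ ≤ 1) (hζ0 : 0 < ζ)
    (h2 : 2 * ζ < τ) (h4 : τ ≤ 4 * ζ) (hτ2 : 1 / 2 ≤ τ) (hτ : τ < 1) (hζυ : ζ ≤ υ) (hυτ : υ < τ)
    (hlam : 0 < lam)
    (hJ0 : ∫ x in ζ..υ, (lam - lam / υ * x) / (τ - x) / x < Real.log (τ / ζ - 1) / τ)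
    (hS : 1 < S) (hr : 1 / lam + S / υ ≤ r + 1) (ε : ℝ) (hε : 0 < ε) :
    ∃ δ : ℝ, 0 < δ ∧ ∃ Y0 : ℕ, ∀ Y : ℕ, Y0 ≤ Y → ∀ x : ℝ, (Y : ℝ) ^ θ ≤ x → x ≤ Y →
      (((Ioc Y (2 * Y)).filter (fun n => Even n ∧ ((gp r x ((Y : ℝ) ^ ζ) n).card : ℝ) <
        δ * x / Real.log Y ^ 2 * sgs n)).card : ℝ) ≤
      (Y : ℝ) ^ (2 * τ - θ + ε) := by
  have hυ0 : 0 < υ := by linarith
  obtain ⟨δ, hδ, Y1, HD⟩ := GW.dyadic θ τ ζ υ lam (lam / υ) (ε / 2) hθ0 hθ1 hζ0 h2 h4 hτ2 hτ hζυ hυτ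
    hlam.le (by positivity) (by rw [div_mul_cancel₀ _ hυ0.ne']) hJ0 (by linarith)
  set s : ℝ := min (ε / 12) (ζ / 2) with hs
  have hs0 : 0 < s := lt_min (by linarith) (by linarith)
  have hsε : s ≤ ε / 12 := min_le_left _ _
  have hsζ : s ≤ ζ / 2 := min_le_right _ _
  obtain ⟨Y2, HP⟩ := pass r θ ζ υ lam S δ s hθ0 hθ1 hζ0 hζυ (by linarith) hlam hδ hs0
    (by linarith) hS hr
  set ξ : ℝ := max ζ (θ - 2 * s) with hξ
  have hξ0 : 0 < ξ := hζ0.trans_le (le_max_left _ _)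
  obtain ⟨Y3, HS⟩ := shift2 ξ υ hξ0 (by linarith)
  have ev4 : ∀ᶠ Y : ℕ in atTop, (5 : ℝ) ≤ (Y : ℝ) ^ (ε / 2) :=
    ((tendsto_rpow_atTop (by linarith)).comp tendsto_natCast_atTop_atTop).eventually_ge_atTop _
  have ev5 : ∀ᶠ Y : ℕ in atTop, (4 : ℝ) ≤ (Y : ℝ) ^ θ :=
    ((tendsto_rpow_atTop hθ0).comp tendsto_natCast_atTop_atTop).eventually_ge_atTop _
  obtain ⟨Y4, hY4⟩ := eventually_atTop.1 (ev4.and (ev5.and (eventually_ge_atTop 3)))
  refine ⟨δ / 4, by positivity, max (max Y1 Y2) (max Y3 Y4), ?_⟩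
  intro Y hY x hYx hxY
  obtain ⟨e4, e5, e6⟩ := hY4 Y (((le_max_right _ _).trans (le_max_right _ _)).trans hY)
  have hY1 : Y1 ≤ Y := ((le_max_left _ _).trans (le_max_left _ _)).trans hY
  have hY2 : Y2 ≤ Y := ((le_max_right _ _).trans (le_max_left _ _)).trans hY
  have hY3 : Y3 ≤ Y := ((le_max_left _ _).trans (le_max_right _ _)).trans hY
  have hYr : (3 : ℝ) ≤ Y := by exact_mod_cast e6
  have hY0 : (0 : ℝ) < Y := by linarith
  have hY1r : (1 : ℝ) ≤ Y := by linarith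
  have hx0 : 0 < x := by linarith
  set X : ℕ := ⌊x⌋₊ with hX
  have hXx : (X : ℝ) ≤ x := Nat.floor_le hx0.le
  have hX1 : 1 ≤ X := Nat.le_floor (by push_cast; linarith)
  have hXY : X ≤ Y := by exact_mod_cast hXx.trans hxY
  set t : ℝ := (Y : ℝ) ^ s with ht
  have ht0 : 0 < t := by positivity
  set A1 := (Ioc Y (2 * Y)).filter (fun n => Even n ∧
    (GW.cnt x (WW Y ζ υ lam (lam / υ)) n : ℝ) < δ * x / Real.log Y ^ 2 * sgs n) with hA1
  set A2 := (Ioc Y (2 * Y)).filter (fun n => (X : ℝ) / t <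
      (((Icc 1 X).filter (fun m => SBad Y ξ υ n m)).card : ℝ)) with hA2
  have hsub : (Ioc Y (2 * Y)).filter (fun n => Even n ∧ ((gp r x ((Y : ℝ) ^ ζ) n).card : ℝ) <
        δ / 4 * x / Real.log Y ^ 2 * sgs n) ⊆ A1 ∪ A2 := by
    intro n hn
    rw [mem_filter, mem_Ioc] at hn
    obtain ⟨⟨hn1, hn2⟩, hev, hlt⟩ := hn
    rw [mem_union]
    by_contra hcon
    push Not at hcon
    obtain ⟨hc1, hc2⟩ := hcon
    have g1 : δ * x / Real.log Y ^ 2 * sgs n ≤ (GW.cnt x (WW Y ζ υ lam (lam / υ)) n : ℝ) := by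
      by_contra h'
      exact hc1 (by rw [hA1, mem_filter, mem_Ioc]; exact ⟨⟨hn1, hn2⟩, hev, not_le.1 h'⟩)
    have g2 : (((Icc 1 X).filter (fun m => SBad Y ξ υ n m)).card : ℝ) ≤ (X : ℝ) / t := by
      by_contra h'
      exact hc2 (by rw [hA2, mem_filter, mem_Ioc]; exact ⟨⟨hn1, hn2⟩, not_le.1 h'⟩)
    exact absurd (HP Y hY2 x hYx hxY n hn1 hn2 g1 g2) (not_le.2 hlt)
  have u1 : (A1.card : ℝ) ≤ (Y : ℝ) ^ (2 * τ - θ + ε / 2) := by
    exact HD Y hY1 x hYx hxY A1 (by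
      intro n hn
      rw [hA1, mem_filter, mem_Ioc] at hn
      exact ⟨hn.1.1, hn.1.2, hn.2.1, hn.2.2⟩)
  have u2 : (A2.card : ℝ) ≤ 4 * (Y : ℝ) ^ (2 * τ - θ + ε / 2) := by
    have h12 := HS Y hY3 X t (by omega) hXY ht0
    refine h12.trans ?_
    calc t * (4 * (Y : ℝ) ^ (1 - ξ)) = 4 * (Y : ℝ) ^ (s + (1 - ξ)) := by
          rw [Real.rpow_add hY0]
          ring
      _ ≤ _ := by
          apply mul_le_mul_of_nonneg_left _ (by norm_num)
          apply Real.rpow_le_rpow_of_exponent_le hY1r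
          have : θ - 2 * s ≤ ξ := le_max_right _ _
          linarith
  calc (((Ioc Y (2 * Y)).filter (fun n => Even n ∧ ((gp r x ((Y : ℝ) ^ ζ) n).card : ℝ) <
        δ / 4 * x / Real.log Y ^ 2 * sgs n)).card : ℝ) ≤ ((A1 ∪ A2).card : ℝ) := by
        exact_mod_cast card_le_card hsub
    _ ≤ A1.card + A2.card := by exact_mod_cast card_union_le _ _
    _ ≤ 5 * (Y : ℝ) ^ (2 * τ - θ + ε / 2) := by linarith
    _ ≤ (Y : ℝ) ^ (ε / 2) * (Y : ℝ) ^ (2 * τ - θ + ε / 2) := by gcongr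
    _ = (Y : ℝ) ^ (2 * τ - θ + ε) := by
        rw [← Real.rpow_add hY0]
        congr 1
        ring

open Classical in
/-- all windows -/
theorem blkAll (r : ℕ) (θ τ ζ υ lam S : ℝ) (hθ0 : 0 < θ) (hθ1 : θ ≤ 1) (hζ0 : 0 < ζ)
    (h2 : 2 * ζ < τ) (h4 : τ ≤ 4 * ζ) (hτ2 : 1 / 2 ≤ τ) (hτ : τ < 1) (hζυ : ζ ≤ υ) (hυτ : υ < τ)
    (hlam : 0 < lam)
    (hJ0 : ∫ x in ζ..υ, (lam - lam / υ * x) / (τ - x) / x < Real.log (τ / ζ - 1) / τ)
    (hS : 1 < S) (hr : 1 / lam + S / υ ≤ r + 1) (ε : ℝ) (hε : 0 < ε) :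
    ∃ δ : ℝ, 0 < δ ∧ ∃ Y0 : ℕ, ∀ Y : ℕ, Y0 ≤ Y →
      (((Ioc Y (2 * Y)).filter (fun n => Even n ∧ ∃ j : ℕ, (Y : ℝ) ^ θ ≤ 2 ^ j ∧ (2 : ℝ) ^ j ≤ Y ∧
        ((gp r (2 ^ j) ((Y : ℝ) ^ ζ) n).card : ℝ) <
        δ * 2 ^ j / Real.log Y ^ 2 * sgs n)).card : ℝ) ≤
      (Y : ℝ) ^ (2 * τ - θ + ε) := by
  obtain ⟨δ, hδ, Y1, H⟩ := blk2 r θ τ ζ υ lam S hθ0 hθ1 hζ0 h2 h4 hτ2 hτ hζυ hυτ hlam hJ0 hS hr
    (ε / 2) (by linarith)
  have ev1 := polylog 4 1 (ε / 2) (by linarith)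
  obtain ⟨Y2, hY2⟩ := eventually_atTop.1 (ev1.and (eventually_ge_atTop 3))
  refine ⟨δ, hδ, max Y1 Y2, fun Y hY => ?_⟩
  obtain ⟨e1, e2⟩ := hY2 Y ((le_max_right _ _).trans hY)
  have hYr : (3 : ℝ) ≤ Y := by exact_mod_cast e2
  have hY0 : (0 : ℝ) < Y := by linarith
  have hY1r : (1 : ℝ) ≤ Y := by linarith
  have hlY1 : 1 ≤ Real.log Y := by
    rw [Real.le_log_iff_exp_le (by linarith)]
    linarith [Real.exp_one_lt_d9]
  set J : Finset ℕ := (range (Nat.log 2 Y + 1)).filter (fun j => (Y : ℝ) ^ θ ≤ 2 ^ j ∧ (2 : ℝ) ^ j ≤ Y)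
    with hJ
  have hsub : (Ioc Y (2 * Y)).filter (fun n => Even n ∧ ∃ j : ℕ, (Y : ℝ) ^ θ ≤ 2 ^ j ∧
        (2 : ℝ) ^ j ≤ Y ∧ ((gp r (2 ^ j) ((Y : ℝ) ^ ζ) n).card : ℝ) <
        δ * 2 ^ j / Real.log Y ^ 2 * sgs n) ⊆ J.biUnion (fun j =>
        (Ioc Y (2 * Y)).filter (fun n => Even n ∧ ((gp r (2 ^ j) ((Y : ℝ) ^ ζ) n).card : ℝ) <
        δ * 2 ^ j / Real.log Y ^ 2 * sgs n)) := by
    intro n hn
    rw [mem_filter] at hn
    obtain ⟨hn1, hn2, j, hj1, hj2, hj3⟩ := hn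
    rw [mem_biUnion]
    refine ⟨j, ?_, by rw [mem_filter]; exact ⟨hn1, hn2, hj3⟩⟩
    rw [hJ, mem_filter, mem_range]
    refine ⟨?_, hj1, hj2⟩
    have h3 : 2 ^ j ≤ Y := by exact_mod_cast hj2
    have := (Nat.le_log_iff_pow_le (by norm_num) (by omega)).2 h3
    omega
  have hJc : (J.card : ℝ) ≤ 4 * Real.log Y ^ 1 := by
    have h3 : J.card ≤ Nat.log 2 Y + 1 := (card_filter_le _ _).trans (by rw [card_range])
    have h4 : (Nat.log 2 Y : ℝ) * Real.log 2 ≤ Real.log Y := by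
      rw [← Real.log_pow]
      apply Real.log_le_log (by positivity)
      exact_mod_cast Nat.pow_log_le_self 2 (by omega)
    have h5 : (0.69 : ℝ) < Real.log 2 := by linarith [Real.log_two_gt_d9]
    have h6 : (Nat.log 2 Y : ℝ) * 0.69 ≤ Real.log Y := by
      refine le_trans ?_ h4
      exact mul_le_mul_of_nonneg_left h5.le (Nat.cast_nonneg _)
    have h7 : (J.card : ℝ) ≤ Nat.log 2 Y + 1 := by exact_mod_cast h3
    rw [pow_one]
    linarith
  calc _ ≤ ((J.biUnion (fun j =>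
        (Ioc Y (2 * Y)).filter (fun n => Even n ∧ ((gp r (2 ^ j) ((Y : ℝ) ^ ζ) n).card : ℝ) <
        δ * 2 ^ j / Real.log Y ^ 2 * sgs n))).card : ℝ) := by exact_mod_cast card_le_card hsub
    _ ≤ ∑ j ∈ J, (((Ioc Y (2 * Y)).filter (fun n => Even n ∧
        ((gp r (2 ^ j) ((Y : ℝ) ^ ζ) n).card : ℝ) <
        δ * 2 ^ j / Real.log Y ^ 2 * sgs n)).card : ℝ) := by exact_mod_cast card_biUnion_le
    _ ≤ ∑ j ∈ J, (Y : ℝ) ^ (2 * τ - θ + ε / 2) := by
        apply sum_le_sum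
        intro j hj
        rw [hJ, mem_filter] at hj
        exact H Y ((le_max_left _ _).trans hY) (2 ^ j) hj.2.1 hj.2.2
    _ = J.card * (Y : ℝ) ^ (2 * τ - θ + ε / 2) := by rw [sum_const, nsmul_eq_mul]
    _ ≤ (4 * Real.log Y ^ 1) * (Y : ℝ) ^ (2 * τ - θ + ε / 2) :=
        mul_le_mul_of_nonneg_right hJc (by positivity)
    _ ≤ (Y : ℝ) ^ (ε / 2) * (Y : ℝ) ^ (2 * τ - θ + ε / 2) :=
        mul_le_mul_of_nonneg_right e1 (by positivity)
    _ = _ := by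
        rw [← Real.rpow_add hY0]
        congr 1
        ring

end Pool.Agent.Y882.GX
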