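import Pool.Agent.Y882.GX.Sm

/-! Every even number, every scale of the prime. -/

set_option autoImplicit false

namespace Pool.Agent.Y882.GX

open Finset Filter
open Pool.Agent.W23.DC
open Pool.Agent.Y882
open Pool.Agent.Y882.PX
open Pool.Agent.Y882.KW
open Pool.Agent.Y882.SI
open Pool.Agent.Y882.GW

open Classical in
/-- the number of the primes `p < N` with `x / 2 < p < x` such that `N - p` has at most `r`
prime factors, all of them at least `w` -/
noncomputable def half (r : ℕ) (w x : ℝ) (N : ℕ) : ℕ :=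
  ((range N).filter (fun p : ℕ => p.Prime ∧ x / 2 < p ∧ (p : ℝ) < x ∧
    (N - p).primeFactorsList.length ≤ r ∧
    ∀ q : ℕ, q.Prime → q ∣ (N - p) → w ≤ q)).card

/-- **Every even number, every scale.** -/
theorem everyEvery (r : ℕ) (θ τ : ℝ) (hτ0 : 0 < τ) (hτθ : τ < θ / 2) (hθ1 : θ ≤ 1)
    (hr : 10 / 9 < (r + 3 / 80) * τ) :
    ∃ δ : ℝ, 0 < δ ∧ ∃ N0 : ℕ, ∀ N : ℕ, N0 ≤ N → Even N → ∀ x : ℝ, (N : ℝ) ^ θ ≤ x → x ≤ N / 2 →
      δ * sgs N * (x / Real.log N ^ 2) ≤ (half r ((N : ℝ) ^ (τ / 4) / 2) x N : ℝ) := by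
  classical
  have hθ0 : 0 < θ := by linarith
  have hJ := Pool.Agent.Y882.KW.cond_C τ (80 / 77) hτ0 (by norm_num) (by norm_num)
  obtain ⟨δ, hδ, Y0, H⟩ := ptw r θ τ (τ / 4) (9 / 10 * τ) (80 / 77) ((r + 3 / 80) * (9 / 10 * τ))
    hθ0 hθ1 (by linarith) (by linarith) (by linarith) hτθ (by linarith) (by linarith)
    (by norm_num) hJ (by nlinarith) (by
      rw [mul_div_assoc, div_self (by positivity)]
      norm_num
      linarith)
  refine ⟨δ, hδ, 2 * (max Y0 3), fun N hN hev x hx1 hx2 => ?_⟩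
  obtain ⟨Y, hYN⟩ := hev
  have hNY : N = 2 * Y := by omega
  have hYm : max Y0 3 ≤ Y := by omega
  have hY0 : Y0 ≤ Y := (le_max_left _ _).trans hYm
  have hY3 : 3 ≤ Y := (le_max_right _ _).trans hYm
  have hYr : (3 : ℝ) ≤ Y := by exact_mod_cast hY3
  have hNr : (N : ℝ) = 2 * Y := by exact_mod_cast hNY
  have hlY : 0 < Real.log Y := Real.log_pos (by linarith)
  have hxY : x ≤ Y := by rw [hNr] at hx2; linarith
  have hYN' : (Y : ℝ) ≤ N := by rw [hNr]; linarith
  have h3θ : (Y : ℝ) ^ θ ≤ (N : ℝ) ^ θ := Real.rpow_le_rpow (by positivity) hYN' hθ0.le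
  have hx0 : 0 < x := lt_of_lt_of_le (by positivity) (h3θ.trans hx1)
  have g1 := H Y hY0 x (h3θ.trans hx1) hxY N (by omega) (by omega) ⟨Y, hYN⟩
  have hv := pw_two (τ / 4) (by linarith) (by linarith) Y N (by omega)
  have h6 : (gp r x ((Y : ℝ) ^ (τ / 4)) N).card ≤ half r ((N : ℝ) ^ (τ / 4) / 2) x N := by
    unfold gp half
    apply card_le_card
    intro p hp
    rw [mem_filter] at hp ⊢
    obtain ⟨-, h8, h8', h9, h10, h11⟩ := hp
    have h14 : (p : ℝ) < N := h9.trans_le (hxY.trans hYN')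
    refine ⟨mem_range.2 (by exact_mod_cast h14), h8, h8', h9, h10, fun q hq hqn => ?_⟩
    have := h11 q hq hqn
    linarith
  have h7 : ((gp r x ((Y : ℝ) ^ (τ / 4)) N).card : ℝ) ≤ half r ((N : ℝ) ^ (τ / 4) / 2) x N := by
    exact_mod_cast h6
  refine le_trans ?_ (g1.trans h7)
  have hs1 : 1 ≤ sgs N := one_le_sgs N
  have h14 : Real.log Y ≤ Real.log N := Real.log_le_log (by linarith) hYN'
  have h15 : x / Real.log N ^ 2 ≤ x / Real.log Y ^ 2 := by
    apply div_le_div_of_nonneg_left hx0.le (by positivity)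
    exact pow_le_pow_left₀ hlY.le h14 2
  calc δ * sgs N * (x / Real.log N ^ 2) ≤ δ * sgs N * (x / Real.log Y ^ 2) :=
        mul_le_mul_of_nonneg_left h15 (by positivity)
    _ = δ * x / Real.log Y ^ 2 * sgs N := by ring

end Pool.Agent.Y882.GX
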