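import Pool.Agent.Y882.GX.ErrS

/-! The pointwise lower bound, level below the square root of the length of the interval. -/

set_option autoImplicit false

open Finset Filter Topology

namespace Pool.Agent.Y882.GX

open Pool.Agent.Y882
open Pool.Agent.Y882.KW
open Pool.Agent.Y882.GW
open Pool.Agent.H410R2
open Pool.Agent.Helper112 Pool.Agent.Helper112.BLB
open Pool.Agent.H732R2.B2 (Sc)

theorem dyadic0 (θ τ ζ υ aw bw : ℝ) (hθ0 : 0 < θ) (hθ1 : θ ≤ 1) (hζ0 : 0 < ζ)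
    (h2 : 2 * ζ < τ) (h4 : τ ≤ 4 * ζ) (hτθ : τ < θ / 2) (hζυ : ζ ≤ υ) (hυτ : υ < τ)
    (ha : 0 ≤ aw) (hb : 0 ≤ bw) (hab : bw * υ ≤ aw)
    (hJ0 : ∫ x in ζ..υ, (aw - bw * x) / (τ - x) / x < Real.log (τ / ζ - 1) / τ) :
    ∃ δ : ℝ, 0 < δ ∧ ∃ Y0 : ℕ, ∀ Y : ℕ, Y0 ≤ Y → ∀ x : ℝ, (Y : ℝ) ^ θ ≤ x →
      x ≤ Y → ∀ n : ℕ, Y < n → n ≤ 2 * Y → Even n →
        δ * x / Real.log Y ^ 2 * sgs n ≤ (GW.cnt x (WW Y ζ υ aw bw) n : ℝ) := by
  classical
  -- parameters
  have hτ : τ < 1 := by linarith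
  set κ : ℝ := (θ / 2 - τ) / 4 with hκ
  have hκ0 : 0 < κ := by rw [hκ]; linarith
  set τ' : ℝ := τ + κ with hτ'
  have hτ'1 : τ' ≤ 1 := by rw [hτ', hκ]; linarith
  set δ' : ℝ := min κ (1 / 4) with hδ'
  have hδ'0 : 0 < δ' := lt_min hκ0 (by norm_num)
  have hδ'κ : δ' ≤ κ := min_le_left _ _
  have hδ'4 : δ' ≤ 1 / 4 := min_le_right _ _
  obtain ⟨c0, hc0, Y1, HW⟩ := GW.wts τ ζ υ aw bw τ' hζ0 h2 h4 hτ.le hζυ hυτ ha hb hab hJ0
    (by linarith)
  obtain ⟨CS, hCS, HSc⟩ := Pool.Agent.H732R2.B2.Sc_bound 1 zero_le_one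
  obtain ⟨Cd, hCd, HCd⟩ := Pool.Agent.Helper112.divisor_bound (θ / 4) (by linarith)
  obtain ⟨X1, HBV⟩ := eventually_atTop.1 (bv_al bv_true δ' hδ'0 5)
  obtain ⟨X2, HM⟩ := eventually_atTop.1 mass
  set C7 : ℝ := 20 * CS * (4 / θ) ^ 5 with hC7
  have ev0 : ∀ᶠ Y : ℕ in atTop, max (max X1 X2) 16 ≤ (Y : ℝ) ^ θ :=
    tendsto_natCast_atTop_atTop.eventually ((tendsto_rpow_atTop hθ0).eventually_ge_atTop _)
  have ev1 : ∀ᶠ Y : ℕ in atTop, (3 : ℝ) ≤ (Y : ℝ) ^ κ :=
    tendsto_natCast_atTop_atTop.eventually ((tendsto_rpow_atTop hκ0).eventually_ge_atTop _)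
  have ev2 : ∀ᶠ Y : ℕ in atTop, max (200 * C7 / c0) 2 ≤ Real.log Y :=
    tendsto_natCast_atTop_atTop.eventually (Real.tendsto_log_atTop.eventually_ge_atTop _)
  have ev3 := polylog (400 / c0) 2 (θ / 2) (by linarith)
  have ev4 := polylog (400 / c0 * (10 * CS)) 7 (θ / 2) (by linarith)
  have ev5 := polylog (400 / c0 * (40 * Cd)) 5 (θ / 2) (by linarith)
  have ev6 := polylog (2000 * CS / c0) 7 (θ / 2) (by linarith)
  obtain ⟨Y2, HY2⟩ := eventually_atTop.1 (ev0.and (ev1.and (ev2.and (ev3.and (ev4.and (ev5.and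
    (ev6.and (eventually_ge_atTop 3))))))))
  refine ⟨c0 / 100, by positivity, max Y1 Y2, ?_⟩
  intro Y hY x hYx hxY n0 hn01 hn02 hev
  by_contra hcon
  push Not at hcon
  obtain ⟨S, hSdef⟩ : ∃ S : Finset ℕ, S = {n0} := ⟨_, rfl⟩
  have hS : ∀ n ∈ S, Y < n ∧ n ≤ 2 * Y ∧ Even n ∧
        (GW.cnt x (WW Y ζ υ aw bw) n : ℝ) < c0 / 100 * x / Real.log Y ^ 2 * sgs n := by
    intro n hn
    rw [hSdef, mem_singleton] at hn
    rw [hn]
    exact ⟨hn01, hn02, hev, hcon⟩
  obtain ⟨f0, f1, f2, f3, f4, f5, f6, f8⟩ := HY2 Y ((le_max_right _ _).trans hY)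
  obtain ⟨c, w1, w2, w3, w4⟩ := HW Y ((le_max_left _ _).trans hY)
  set L : ℝ := Real.log Y with hL
  have hYr : (3 : ℝ) ≤ Y := by exact_mod_cast f8
  have hY1 : (1 : ℝ) ≤ Y := by linarith
  have hY0 : (0 : ℝ) < Y := by linarith
  have hL2 : 2 ≤ L := (le_max_right _ _).trans f2
  have hL0 : 0 < L := by linarith
  have hx16 : 16 ≤ x := ((le_max_right _ _).trans f0).trans hYx
  have hxX1 : X1 ≤ x := (((le_max_left _ _).trans (le_max_left _ _)).trans f0).trans hYx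
  have hxX2 : X2 ≤ x := (((le_max_right _ _).trans (le_max_left _ _)).trans f0).trans hYx
  have hx0 : 0 < x := by linarith
  have hx1 : 1 ≤ x := by linarith
  have hlx : Real.log x ≤ L := Real.log_le_log hx0 hxY
  have hlx0 : 0 ≤ Real.log x := Real.log_nonneg hx1
  set X := ⌊x⌋₊ with hX
  have hXx : (X : ℝ) ≤ x := Nat.floor_le hx0.le
  have hXY : X ≤ Y := by exact_mod_cast hXx.trans hxY
  set M := ∑ m ∈ Icc 1 X, al x m with hMdef
  have hM : x / 20 ≤ M := HM x hxX2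
  -- the levels
  set F0 : ℕ := ⌊(x / 2) ^ (1 / 2 - δ')⌋₊ with hF0
  set D0 : ℕ := ⌊(Y : ℝ) ^ τ'⌋₊ with hD0
  obtain ⟨D, hDdef⟩ : ∃ D : ℕ, D = F0 := ⟨_, rfl⟩
  have hF01 : 1 ≤ F0 := by
    apply Nat.le_floor
    push_cast
    exact Real.one_le_rpow (by linarith) (by linarith)
  have hF0le : (F0 : ℝ) ≤ (x / 2) ^ (1 / 2 - δ') := Nat.floor_le (by positivity)
  have hF0x : (F0 : ℝ) ≤ √x := by
    rw [Real.sqrt_eq_rpow]
    refine hF0le.trans ?_
    calc (x / 2) ^ (1 / 2 - δ') ≤ (x / 2) ^ ((1 : ℝ) / 2) :=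
          Real.rpow_le_rpow_of_exponent_le (by linarith) (by linarith)
      _ ≤ x ^ ((1 : ℝ) / 2) := Real.rpow_le_rpow (by positivity) (by linarith) (by norm_num)
  have hD0D : D0 ≤ D := by
    rw [hDdef, hF0, hD0]
    apply Nat.floor_le_floor
    have h1 : (Y : ℝ) ^ (θ - κ) ≤ x / 2 := by
      have h3 : (Y : ℝ) ^ θ = (Y : ℝ) ^ κ * (Y : ℝ) ^ (θ - κ) := by
        rw [← Real.rpow_add hY0]
        congr 1
        ring
      have h4 : 2 * (Y : ℝ) ^ (θ - κ) ≤ (Y : ℝ) ^ κ * (Y : ℝ) ^ (θ - κ) :=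
        mul_le_mul_of_nonneg_right (by linarith) (by positivity)
      rw [← h3] at h4
      linarith
    calc (Y : ℝ) ^ τ' ≤ ((Y : ℝ) ^ (θ - κ)) ^ (1 / 2 - δ') := by
          rw [← Real.rpow_mul hY0.le]
          apply Real.rpow_le_rpow_of_exponent_le hY1
          have e1 : (θ - κ) * (1 / 2 - δ') = θ / 2 - θ * δ' - κ * (1 / 2 - δ') := by ring
          have e2 : θ * δ' ≤ 1 * κ := mul_le_mul hθ1 hδ'κ hδ'0.le (by norm_num)
          have e3 : κ * (1 / 2 - δ') ≤ κ * 1 := mul_le_mul_of_nonneg_left (by linarith) hκ0.le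
          have e4 : θ / 2 = τ + 4 * κ := by rw [hκ]; ring
          rw [e1, hτ', e4]
          linarith
      _ ≤ (x / 2) ^ (1 / 2 - δ') := Real.rpow_le_rpow (by positivity) h1 (by linarith)
  have hD0le : (D0 : ℝ) ≤ (Y : ℝ) ^ τ' := Nat.floor_le (by positivity)
  have hsxY : √x ≤ (Y : ℝ) ^ ((1 : ℝ) / 2) := by
    rw [Real.sqrt_eq_rpow]
    exact Real.rpow_le_rpow hx0.le hxY (by norm_num)
  have hDx : (D : ℝ) ≤ √x := by rw [hDdef]; exact hF0x
  have hDY : (D : ℝ) ≤ Y := by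
    refine hDx.trans (hsxY.trans ?_)
    calc (Y : ℝ) ^ ((1 : ℝ) / 2) ≤ (Y : ℝ) ^ (1 : ℝ) :=
          Real.rpow_le_rpow_of_exponent_le hY1 (by norm_num)
      _ = Y := Real.rpow_one _
  have hD1 : 1 ≤ D := by rw [hDdef]; exact hF01
  have hlD : Real.log D ≤ L := Real.log_le_log (by exact_mod_cast hD1) hDY
  have hlD0 : 0 ≤ Real.log D := Real.log_natCast_nonneg D
  -- the sum of 1 / φ
  have hSc : Sc 1 D ≤ CS * L ^ 2 := by
    have h1 : Sc 1 D ≤ Sc 1 (max D 3) :=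
      Pool.Agent.H732R2.B2.Sc_mono 1 zero_le_one (le_max_left _ _)
    refine h1.trans ((HSc _ (le_max_right _ _)).trans ?_)
    apply mul_le_mul_of_nonneg_left _ hCS.le
    have h2 : (2 * (1 : ℝ)) = ((2 : ℕ) : ℝ) := by norm_num
    rw [h2, Real.rpow_natCast]
    apply pow_le_pow_left₀ (Real.log_natCast_nonneg _)
    apply Real.log_le_log
    · have : 0 < max D 3 := lt_of_lt_of_le (by norm_num) (le_max_right _ _)
      exact_mod_cast this
    · have : max D 3 ≤ Y := max_le (by exact_mod_cast hDY) f8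
      exact_mod_cast this
  have hSc0 : 0 ≤ Sc 1 D := by unfold Sc; positivity
  -- bounds for the noncoprime terms
  set R : ℝ := 2 * L ^ 3 with hR
  have hRb : ∀ g : ℕ, 1 ≤ g → g ≤ D →
      ∑ b ∈ (Icc 1 X).filter (fun b => ¬ b.Coprime g), |al x b| ≤ R := by
    intro g hg1 hgD
    refine (al_noncop x hx1 g hg1).trans ?_
    have h1 : Real.log g ≤ L := (Real.log_le_log (by exact_mod_cast hg1)
      (by exact_mod_cast hgD)).trans hlD
    have h2 : 0 ≤ Real.log g := Real.log_natCast_nonneg g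
    calc 2 * Real.log g * Real.log x ^ 2 ≤ 2 * L * L ^ 2 := by gcongr
      _ = R := by rw [hR]; ring
  set R' : ℝ := 4 * L ^ 3 with hR'
  have hRb' : ∀ n ∈ S, ∑ b ∈ (Icc 1 X).filter (fun b => ¬ b.Coprime n), |al x b| ≤ R' := by
    intro n hn
    obtain ⟨h1, h2, -, -⟩ := hS n hn
    refine (al_noncop x hx1 n (by omega)).trans ?_
    have h3 : Real.log n ≤ 2 * L := by
      have h4 : (n : ℝ) ≤ (Y : ℝ) ^ 2 := by
        have : n ≤ Y ^ 2 := by
          calc n ≤ 2 * Y := h2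
            _ ≤ Y * Y := Nat.mul_le_mul_right _ (by omega)
            _ = Y ^ 2 := (sq Y).symm
        exact_mod_cast this
      have h5 := Real.log_le_log (by
        have : 0 < n := by omega
        exact_mod_cast this) h4
      rw [Real.log_pow] at h5
      push_cast at h5
      exact h5
    have h4 : 0 ≤ Real.log n := Real.log_natCast_nonneg n
    calc 2 * Real.log n * Real.log x ^ 2 ≤ 2 * (2 * L) * L ^ 2 := by gcongr
      _ = R' := by rw [hR']; ring
  set B : ℝ := Cd * (2 * (Y : ℝ) ^ (θ / 4)) with hB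
  have hBb : ∀ n ∈ S, ∀ N : ℕ, 1 ≤ N → N ≤ n → (N.divisors.card : ℝ) ≤ B := by
    intro n hn N hN1 hNn
    obtain ⟨h1, h2, -, -⟩ := hS n hn
    refine (HCd N hN1).trans ?_
    rw [hB]
    apply mul_le_mul_of_nonneg_left _ hCd.le
    have h3 : (N : ℝ) ≤ 2 * Y := by
      have : N ≤ 2 * Y := hNn.trans h2
      exact_mod_cast this
    calc (N : ℝ) ^ (θ / 4) ≤ (2 * (Y : ℝ)) ^ (θ / 4) :=
          Real.rpow_le_rpow (by positivity) h3 (by linarith)
      _ = 2 ^ (θ / 4) * (Y : ℝ) ^ (θ / 4) := Real.mul_rpow (by norm_num) hY0.le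
      _ ≤ 2 * (Y : ℝ) ^ (θ / 4) := by
          apply mul_le_mul_of_nonneg_right _ (by positivity)
          calc (2 : ℝ) ^ (θ / 4) ≤ 2 ^ (1 : ℝ) :=
                Real.rpow_le_rpow_of_exponent_le (by norm_num) (by linarith)
            _ = 2 := Real.rpow_one _
  -- sizes
  set G : ℝ := x / L with hG
  have hG0 : 0 < G := by positivity
  have hsx : √x * √x = x := Real.mul_self_sqrt hx0.le
  have hsx0 : 0 < √x := Real.sqrt_pos.2 hx0
  have hYs : (Y : ℝ) ^ (θ / 2) ≤ √x := by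
    rw [Real.sqrt_eq_rpow]
    calc (Y : ℝ) ^ (θ / 2) = ((Y : ℝ) ^ θ) ^ ((1 : ℝ) / 2) := by
          rw [← Real.rpow_mul hY0.le]; congr 1; ring
      _ ≤ x ^ ((1 : ℝ) / 2) := Real.rpow_le_rpow (by positivity) hYx (by norm_num)
  have hYhalf : (Y : ℝ) ^ (θ / 4) ≤ √x := by
    refine le_trans ?_ hYs
    exact Real.rpow_le_rpow_of_exponent_le hY1 (by linarith)
  have hYs1 : (1 : ℝ) ≤ √x := by
    rw [Real.one_le_sqrt]; exact hx1
  -- (b)
  have eb : 2 * √x * L ≤ c0 / 200 * G := by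
    have h1 : 400 / c0 * L ^ 2 ≤ √x := f3.trans hYs
    rw [hG, mul_div_assoc', le_div_iff₀ hL0]
    have h2 : 400 / c0 * L ^ 2 * √x ≤ √x * √x := mul_le_mul_of_nonneg_right h1 hsx0.le
    rw [hsx] at h2
    have h3 : 2 * √x * L * L = c0 / 200 * (400 / c0 * L ^ 2 * √x) := by field_simp; ring
    rw [h3]
    exact mul_le_mul_of_nonneg_left h2 (by positivity)
  -- (a)
  have ea : 5 * L * (Sc 1 D * R + B * R') ≤ c0 / 200 * G := by
    have h1 : 400 / c0 * (10 * CS) * L ^ 7 ≤ √x := f4.trans hYs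
    have h2 : 400 / c0 * (40 * Cd) * L ^ 5 ≤ √x := f5.trans hYs
    have h3 : 5 * L * (Sc 1 D * R + B * R') ≤ 10 * CS * L ^ 6 + 40 * Cd * L ^ 4 * √x := by
      rw [hR, hR', hB]
      calc 5 * L * (Sc 1 D * (2 * L ^ 3) + Cd * (2 * (Y : ℝ) ^ (θ / 4)) * (4 * L ^ 3)) ≤
          5 * L * (CS * L ^ 2 * (2 * L ^ 3) + Cd * (2 * √x) * (4 * L ^ 3)) := by gcongr
        _ = _ := by ring
    refine h3.trans ?_
    rw [hG, mul_div_assoc', le_div_iff₀ hL0]
    have h4 : 400 / c0 * (10 * CS) * L ^ 7 ≤ x := by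
      calc _ ≤ √x := h1
        _ = 1 * √x := (one_mul _).symm
        _ ≤ √x * √x := mul_le_mul_of_nonneg_right hYs1 hsx0.le
        _ = x := hsx
    have h5 : 400 / c0 * (40 * Cd) * L ^ 5 * √x ≤ √x * √x := mul_le_mul_of_nonneg_right h2 hsx0.le
    rw [hsx] at h5
    have h6 : (10 * CS * L ^ 6 + 40 * Cd * L ^ 4 * √x) * L =
        c0 / 400 * (400 / c0 * (10 * CS) * L ^ 7) +
        c0 / 400 * (400 / c0 * (40 * Cd) * L ^ 5 * √x) := by field_simp
    rw [h6]
    have h7 := mul_le_mul_of_nonneg_left h4 (show 0 ≤ c0 / 400 by positivity)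
    have h8 := mul_le_mul_of_nonneg_left h5 (show 0 ≤ c0 / 400 by positivity)
    linarith
  -- (c)
  set BVs : ℝ := ∑ f ∈ Icc 2 D, (1 / (Nat.totient f : ℝ)) * PA X (al x) f with hBVs
  have hBV := HBV x hxX1 D (by rw [hDdef]; exact hF0le) (by linarith)
  have hlx2 : θ / 4 * L ≤ Real.log (x / 2) := by
    have h1 : (Y : ℝ) ^ (θ / 4) ≤ x / 2 := by
      have h2 : (Y : ℝ) ^ (θ / 4) ≤ √x := hYhalf
      have h3 : √x ≤ x / 2 := by
        have h4 : 2 ≤ √x := by
          rw [Real.le_sqrt' (by norm_num)]; linarith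
        have h4' := mul_le_mul_of_nonneg_right h4 hsx0.le
        rw [hsx] at h4'
        linarith
      linarith
    have h5 := Real.log_le_log (by positivity) h1
    rw [Real.log_rpow hY0] at h5
    exact h5
  have ec : 5 * L * (Sc 1 D * (BVs + D * R)) ≤ c0 / 100 * G := by
    have h1 : BVs ≤ 4 * x * ((4 / θ) ^ 5 / L ^ 5) := by
      refine hBV.trans ?_
      have h2 : (θ / 4 * L) ^ 5 ≤ Real.log (x / 2) ^ 5 := pow_le_pow_left₀ (by positivity) hlx2 5
      calc 4 * x / Real.log (x / 2) ^ 5 ≤ 4 * x / (θ / 4 * L) ^ 5 :=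
            div_le_div_of_nonneg_left (by positivity) (by positivity) h2
        _ = _ := by
            rw [mul_pow, div_pow, div_pow]
            field_simp
    have hBVs0 : 0 ≤ BVs := by
      rw [hBVs]
      apply sum_nonneg
      intro f _
      unfold PA
      positivity
    have h2 : 5 * L * (Sc 1 D * BVs) ≤ C7 * x / L ^ 2 := by
      calc 5 * L * (Sc 1 D * BVs) ≤ 5 * L * (CS * L ^ 2 * (4 * x * ((4 / θ) ^ 5 / L ^ 5))) := by
            gcongr
        _ = C7 * x / L ^ 2 := by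
            rw [hC7]
            field_simp
            ring
    have h3 : C7 * x / L ^ 2 ≤ c0 / 200 * G := by
      have h4 : 200 * C7 / c0 ≤ L := (le_max_left _ _).trans f2
      rw [div_le_iff₀ hc0] at h4
      rw [hG, mul_div_assoc', div_le_div_iff₀ (by positivity) hL0]
      have h5 : C7 ≤ c0 / 200 * L := by linarith
      calc C7 * x * L ≤ (c0 / 200 * L) * x * L := by gcongr
        _ = c0 / 200 * x * L ^ 2 := by ring
    have h4 : 5 * L * (Sc 1 D * (D * R)) ≤ c0 / 200 * G := by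
      have h5 : 2000 * CS / c0 * L ^ 7 ≤ √x := f6.trans hYs
      have h6 : 5 * L * (Sc 1 D * (D * R)) ≤ 10 * CS * L ^ 6 * √x := by
        rw [hR]
        calc 5 * L * (Sc 1 D * (D * (2 * L ^ 3))) ≤ 5 * L * (CS * L ^ 2 * (√x * (2 * L ^ 3))) := by
              gcongr
          _ = _ := by ring
      refine h6.trans ?_
      rw [hG, mul_div_assoc', le_div_iff₀ hL0]
      have h7 : 2000 * CS / c0 * L ^ 7 * √x ≤ √x * √x := mul_le_mul_of_nonneg_right h5 hsx0.le
      rw [hsx] at h7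
      have h8 : 10 * CS * L ^ 6 * √x * L = c0 / 200 * (2000 * CS / c0 * L ^ 7 * √x) := by
        field_simp
        ring
      rw [h8]
      exact mul_le_mul_of_nonneg_left h7 (by positivity)
    have h5 : 5 * L * (Sc 1 D * (BVs + D * R)) = 5 * L * (Sc 1 D * BVs) +
        5 * L * (Sc 1 D * (D * R)) := by ring
    rw [h5]
    linarith
  -- the large sieve part
  set Z : ℕ := 2 * Y with hZ
  have hSZ : S ⊆ Icc 1 Z := by
    intro n hn
    obtain ⟨h1, h2, -, -⟩ := hS n hn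
    rw [mem_Icc]
    omega
  -- the total error
  have herr := err_small X Z D (al x) S hSZ hD1 c (5 * L) (by positivity) w1
    (fun d hd => (w2 d hd).1) R hRb
  have hcD : ∀ d, c d ≠ 0 → Squarefree d ∧ d ≤ D := by
    intro d hd
    refine ⟨(w2 d hd).1, ?_⟩
    exact (Nat.le_floor (w2 d hd).2).trans hD0D
  -- lower bounds for each n
  have hpt : ∀ n ∈ S, ∑ d ∈ (Icc 1 D).filter (fun d => Nat.Coprime n d), c d * Ed X (al x) d n ≤
      -(c0 * 3 / 100 * G) := by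
    intro n hn
    obtain ⟨h1, h2, h3, h4⟩ := hS n hn
    have h5 := GW.lowT x (WW Y ζ υ aw bw) n D c (5 * L) B R R' hx1
      (hxY.trans_lt (by exact_mod_cast h1)) (by positivity) w1 hcD
      w3 (hBb n hn) hRb (by positivity) (hRb' n hn)
    have h6 := GW.TT_le x (WW Y ζ υ aw bw) (fun N => WW_le_one Y ζ υ aw bw hb hab N) hx1 n
    have h7 : ∑ d ∈ (Icc 1 D).filter (fun d => Nat.Coprime n d),
        c d * (1 / (Nat.totient d : ℝ)) =
        ∑ d ∈ (Icc 1 D0).filter (fun d => Nat.Coprime n d), c d * (1 / (Nat.totient d : ℝ)) := by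
      symm
      apply sum_subset
      · intro d hd
        rw [mem_filter, mem_Icc] at hd ⊢
        exact ⟨⟨hd.1.1, hd.1.2.trans hD0D⟩, hd.2⟩
      · intro d hd hd'
        rw [mem_filter, mem_Icc] at hd hd'
        have : c d = 0 := by
          by_contra hne
          exact hd' ⟨⟨hd.1.1, Nat.le_floor (w2 d hne).2⟩, hd.2⟩
        rw [this, zero_mul]
    have h8 := w4 n (by omega) h2 h3
    rw [← h7] at h8
    have hs1 := one_le_sgs n
    have h10 : Real.log x * GW.cnt x (WW Y ζ υ aw bw) n ≤ c0 / 100 * G * sgs n := by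
      calc Real.log x * GW.cnt x (WW Y ζ υ aw bw) n ≤ L * (c0 / 100 * x / L ^ 2 * sgs n) := by
            apply mul_le_mul hlx h4.le (by positivity) hL0.le
        _ = c0 / 100 * G * sgs n := by
            rw [hG]
            field_simp
    have h11 : x / 20 * (c0 / L * sgs n) ≤ M * ∑ d ∈ (Icc 1 D).filter (fun d => Nat.Coprime n d),
        c d * (1 / (Nat.totient d : ℝ)) := by
      apply mul_le_mul hM h8 (by positivity)
      exact le_trans (by positivity) hM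
    have h12 : x / 20 * (c0 / L * sgs n) = c0 * 5 / 100 * G * sgs n := by
      rw [hG]
      field_simp
      ring
    have h13 : 2 * √x * Real.log x ≤ 2 * √x * L := mul_le_mul_of_nonneg_left hlx (by positivity)
    have h14 : G ≤ G * sgs n := le_mul_of_one_le_right hG0.le hs1
    have h15 : c0 * G ≤ c0 * (G * sgs n) := mul_le_mul_of_nonneg_left h14 hc0.le
    linarith
  -- exchange of the sums
  have hswap : ∑ n ∈ S, ∑ d ∈ (Icc 1 D).filter (fun d => Nat.Coprime n d),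
      c d * Ed X (al x) d n = ∑ d ∈ Icc 1 D, c d * ∑ n ∈ S.filter (fun n => n.Coprime d),
        Ed X (al x) d n := by
    simp_rw [sum_filter]
    rw [sum_comm]
    apply sum_congr rfl
    intro d _
    rw [mul_sum]
    apply sum_congr rfl
    intro n _
    split_ifs <;> simp
  have hsum := sum_le_sum hpt
  rw [hswap, sum_const, nsmul_eq_mul] at hsum
  have habs := (abs_le.1 herr).1
  -- conclusion
  have hScard : (S.card : ℝ) = 1 := by
    rw [hSdef, card_singleton]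
    norm_num
  rw [hScard] at hsum habs
  have h1 : 5 * L * (Sc 1 D * (1 * (BVs + D * R))) = 5 * L * (Sc 1 D * (BVs + D * R)) := by ring
  rw [h1] at habs
  have h3 : 0 < c0 * G := by positivity
  linarith

end Pool.Agent.Y882.GX
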