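import Pool.Agent.Y882.GX.Pt

/-! Every even number: a prime plus an almost prime, pointwise. -/

set_option autoImplicit false

namespace Pool.Agent.Y882.GX

open Finset Filter
open Pool.Agent.W23.DC
open Pool.Agent.Y882
open Pool.Agent.Y882.PX
open Pool.Agent.Y882.KW
open Pool.Agent.Y882.SI
open Pool.Agent.Y882.GW

open Classical in
/-- every even number -/
theorem ptw (r : ℕ) (θ τ ζ υ lam S : ℝ) (hθ0 : 0 < θ) (hθ1 : θ ≤ 1) (hζ0 : 0 < ζ)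
    (h2 : 2 * ζ < τ) (h4 : τ ≤ 4 * ζ) (hτθ : τ < θ / 2) (hζυ : ζ ≤ υ) (hυτ : υ < τ)
    (hlam : 0 < lam)
    (hJ0 : ∫ x in ζ..υ, (lam - lam / υ * x) / (τ - x) / x < Real.log (τ / ζ - 1) / τ)
    (hS : 1 < S) (hr : 1 / lam + S / υ ≤ r + 1) :
    ∃ δ : ℝ, 0 < δ ∧ ∃ Y0 : ℕ, ∀ Y : ℕ, Y0 ≤ Y → ∀ x : ℝ, (Y : ℝ) ^ θ ≤ x → x ≤ Y →
      ∀ n : ℕ, Y < n → n ≤ 2 * Y → Even n →
        δ * x / Real.log Y ^ 2 * sgs n ≤ ((gp r x ((Y : ℝ) ^ ζ) n).card : ℝ) := by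
  have hυ0 : 0 < υ := by linarith
  obtain ⟨δ, hδ, Y1, HD⟩ := dyadic0 θ τ ζ υ lam (lam / υ) hθ0 hθ1 hζ0 h2 h4 hτθ hζυ hυτ
    hlam.le (by positivity) (by rw [div_mul_cancel₀ _ hυ0.ne']) hJ0
  set s : ℝ := min ((θ - υ) / 2) (ζ / 2) with hs
  have hs0 : 0 < s := lt_min (by linarith) (by linarith)
  have hsθ : s ≤ (θ - υ) / 2 := min_le_left _ _
  have hsζ : s ≤ ζ / 2 := min_le_right _ _
  obtain ⟨Y2, HP⟩ := pass r θ ζ υ lam S δ s hθ0 hθ1 hζ0 hζυ (by linarith) hlam hδ hs0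
    (by linarith) hS hr
  refine ⟨δ / 4, by positivity, max Y1 (max Y2 1), fun Y hY x hYx hxY n hn1 hn2 hev => ?_⟩
  have hY1 : Y1 ≤ Y := (le_max_left _ _).trans hY
  have hY2 : Y2 ≤ Y := ((le_max_left _ _).trans (le_max_right _ _)).trans hY
  refine HP Y hY2 x hYx hxY n hn1 hn2 (HD Y hY1 x hYx hxY n hn1 hn2 hev) ?_
  have : (Icc 1 ⌊x⌋₊).filter (fun m => SBad Y (max ζ (θ - 2 * s)) υ n m) = ∅ := by
    apply filter_eq_empty_iff.2
    rintro m _ ⟨q, hq, _⟩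
    unfold pr at hq
    rw [mem_filter] at hq
    have h5 : θ - 2 * s ≤ max ζ (θ - 2 * s) := le_max_right _ _
    linarith [hq.2.2.1, hq.2.2.2]
  rw [this]
  simp only [card_empty, Nat.cast_zero]
  positivity

open Classical in
/-- one window, numerical parameters -/
theorem blkOne (r : ℕ) (θ τ ζ ε : ℝ) (hpar : Par r τ ζ)
    (hτ : τ < 1) (hθ0 : 0 < θ) (hθ1 : θ ≤ 1) (hε : 0 < ε) :
    ∃ δ : ℝ, 0 < δ ∧ ∃ Y0 : ℕ, ∀ Y : ℕ, Y0 ≤ Y → ∀ x : ℝ, (Y : ℝ) ^ θ ≤ x → x ≤ Y →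
      (((Ioc Y (2 * Y)).filter (fun n => Even n ∧ ((gp r x ((Y : ℝ) ^ ζ) n).card : ℝ) <
        δ * x / Real.log Y ^ 2 * sgs n)).card : ℝ) ≤
      (Y : ℝ) ^ (2 * τ - θ + ε) := by
  have hτ2 : 1 / 2 ≤ τ := by
    rcases hpar with ⟨_, h, _⟩ | ⟨_, h, _⟩ <;> linarith
  have hζ0 : 0 < ζ := by
    rcases hpar with ⟨_, _, h⟩ | ⟨_, _, h⟩ <;> rw [h] <;> linarith
  have hζτ : 2 * ζ < τ := by
    rcases hpar with ⟨_, _, h⟩ | ⟨_, _, h⟩ <;> rw [h] <;> linarith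
  rcases hpar with ⟨hr, h1, h2⟩ | ⟨hr, h1, h2⟩
  · have hJ := Pool.Agent.Y882.KW.cond_B τ (20 / 31) (by linarith) (by norm_num) (by norm_num)
    rw [← h2] at hJ
    refine blk2 r θ τ ζ (9 / 10 * τ) (20 / 31) (1001 / 1000) hθ0 hθ1 hζ0
      hζτ (by rw [h2]; linarith) hτ2 hτ (by rw [h2]; linarith) (by linarith) (by norm_num) hJ
      (by norm_num) ?_ ε hε
    rw [hr]
    have h3 : (1001 / 1000 : ℝ) / (9 / 10 * τ) ≤ 2225 / 1000 := by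
      rw [div_le_iff₀ (by linarith)]
      linarith
    push_cast
    norm_num at h3 ⊢
    linarith
  · have hJ := Pool.Agent.Y882.KW.cond_C τ (80 / 77) (by linarith) (by norm_num) (by norm_num)
    rw [← h2] at hJ
    refine blk2 r θ τ ζ (9 / 10 * τ) (80 / 77) (10002 / 10000) hθ0 hθ1 hζ0
      hζτ (by rw [h2]; linarith) hτ2 hτ (by rw [h2]; linarith) (by linarith) (by norm_num) hJ
      (by norm_num) ?_ ε hε
    rw [hr]
    have h3 : (10002 / 10000 : ℝ) / (9 / 10 * τ) ≤ 20375 / 10000 := by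
      rw [div_le_iff₀ (by linarith)]
      linarith
    push_cast
    norm_num at h3 ⊢
    linarith

open Classical in
/-- the number of the primes `p < N` with `√N < p < 4 √N` such that `N - p` has at most `r`
prime factors, all of them at least `w` -/
noncomputable def inSqrt (r : ℕ) (w : ℝ) (N : ℕ) : ℕ :=
  ((range N).filter (fun p : ℕ => p.Prime ∧ √(N : ℝ) < p ∧ (p : ℝ) < 4 * √(N : ℝ) ∧
    (N - p).primeFactorsList.length ≤ r ∧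
    ∀ q : ℕ, q.Prime → q ∣ (N - p) → w ≤ q)).card

theorem gp_le_inSqrt (r : ℕ) (w v : ℝ) (hwv : v ≤ w) (Y n : ℕ) (hY : 16 ≤ Y)
    (h2 : Y < n) (h3 : n ≤ 2 * Y) :
    (gp r (4 * (Y : ℝ) ^ ((1 : ℝ) / 2)) w n).card ≤ inSqrt r v n := by
  classical
  have h12 : (n : ℝ) ≤ 2 * Y := by exact_mod_cast h3
  have h13 : (Y : ℝ) < n := by exact_mod_cast h2
  have hYr : (16 : ℝ) ≤ Y := by exact_mod_cast hY
  rw [← Real.sqrt_eq_rpow]
  have hs0 : 0 < √(Y : ℝ) := Real.sqrt_pos.2 (by linarith)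
  have hss : √(Y : ℝ) * √(Y : ℝ) = Y := Real.mul_self_sqrt (by linarith)
  have e1 : √(n : ℝ) < 2 * √(Y : ℝ) := by
    rw [Real.sqrt_lt' (by positivity)]
    calc (n : ℝ) ≤ 2 * Y := h12
      _ < 4 * Y := by linarith
      _ = (2 * √(Y : ℝ)) ^ 2 := by rw [mul_pow, sq (√(Y : ℝ)), hss]; ring
  have e2 : √(Y : ℝ) < √(n : ℝ) := Real.sqrt_lt_sqrt (by linarith) h13
  have e3 : 4 * √(Y : ℝ) ≤ Y := by
    have h4 : 4 ≤ √(Y : ℝ) := by
      rw [Real.le_sqrt' (by norm_num)]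
      linarith
    have := mul_le_mul_of_nonneg_right h4 hs0.le
    rwa [hss] at this
  unfold gp inSqrt
  apply card_le_card
  intro p hp
  rw [mem_filter] at hp ⊢
  obtain ⟨-, h8, h8', h9, h10, h11⟩ := hp
  have h14 : (p : ℝ) < n := h9.trans_le (e3.trans h13.le)
  exact ⟨mem_range.2 (by exact_mod_cast h14), h8, by linarith, by linarith, h10,
    fun q hq hqn => hwv.trans (h11 q hq hqn)⟩

open Classical in
/-- **The window of Rivera, few exceptions.** -/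
theorem sqrtFew (r : ℕ) (τ ζ ε : ℝ) (hpar : Par r τ ζ) (hτ : τ < 1) (hε : 0 < ε) :
    ∃ δ C : ℝ, 0 < δ ∧ 0 < C ∧ ∀ X : ℕ, 1 ≤ X →
      (((Icc 1 X).filter (fun N : ℕ => Even N ∧
        (inSqrt r ((N : ℝ) ^ ζ / 2) N : ℝ) < δ * sgs N * (√(N : ℝ) / Real.log N ^ 2))).card : ℝ) ≤
      C * (X : ℝ) ^ (2 * τ - 1 / 2 + ε) := by
  have hζ0 : 0 < ζ := hpar.ζ_pos
  have hζ1 : ζ ≤ 1 := hpar.ζ_le hτ
  have hτ2 : 1 / 2 ≤ τ := by
    rcases hpar with ⟨_, h, _⟩ | ⟨_, h, _⟩ <;> linarith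
  obtain ⟨δ, hδ, Y0, H⟩ := blkOne r (1 / 2) τ ζ ε hpar hτ (by norm_num) (by norm_num) hε
  obtain ⟨C, hC, hcum⟩ := Pool.Agent.Y882.cum (fun N : ℕ => Even N ∧
    (inSqrt r ((N : ℝ) ^ ζ / 2) N : ℝ) < δ * sgs N * (√(N : ℝ) / Real.log N ^ 2))
    (2 * τ - 1 / 2 + ε) (by linarith)
    (max Y0 16) (by
    intro Y hY
    have hY0 : Y0 ≤ Y := (le_max_left _ _).trans hY
    have hY3 : 16 ≤ Y := (le_max_right _ _).trans hY
    have hYr : (16 : ℝ) ≤ Y := by exact_mod_cast hY3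
    have hYp : (0 : ℝ) < Y := by linarith
    have hlY : 0 < Real.log Y := Real.log_pos (by linarith)
    have hs0 : 0 < (Y : ℝ) ^ ((1 : ℝ) / 2) := by positivity
    have e3 : 4 * (Y : ℝ) ^ ((1 : ℝ) / 2) ≤ Y := by
      rw [← Real.sqrt_eq_rpow]
      have h4 : 4 ≤ √(Y : ℝ) := by
        rw [Real.le_sqrt' (by norm_num)]
        linarith
      have := mul_le_mul_of_nonneg_right h4 (Real.sqrt_nonneg (Y : ℝ))
      rwa [Real.mul_self_sqrt (by linarith)] at this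
    refine le_trans ?_ (H Y hY0 (4 * (Y : ℝ) ^ ((1 : ℝ) / 2)) (by linarith) e3)
    apply Nat.cast_le.2
    apply card_le_card
    intro n hn
    rw [mem_filter, mem_Ioc] at hn ⊢
    obtain ⟨⟨h2, h3⟩, h4, h5⟩ := hn
    refine ⟨⟨h2, h3⟩, h4, ?_⟩
    have h12 : (n : ℝ) ≤ 2 * Y := by exact_mod_cast h3
    have h13 : (Y : ℝ) < n := by exact_mod_cast h2
    have hv : (n : ℝ) ^ ζ / 2 ≤ (Y : ℝ) ^ ζ := by
      have h2ζ : (n : ℝ) ^ ζ ≤ 2 * (Y : ℝ) ^ ζ := by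
        calc (n : ℝ) ^ ζ ≤ (2 * (Y : ℝ)) ^ ζ := Real.rpow_le_rpow (by positivity) h12 hζ0.le
          _ = 2 ^ ζ * (Y : ℝ) ^ ζ := Real.mul_rpow (by norm_num) (by positivity)
          _ ≤ 2 * (Y : ℝ) ^ ζ := by
              apply mul_le_mul_of_nonneg_right _ (by positivity)
              calc (2 : ℝ) ^ ζ ≤ 2 ^ (1 : ℝ) :=
                    Real.rpow_le_rpow_of_exponent_le (by norm_num) hζ1
                _ = 2 := Real.rpow_one _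
      linarith
    have h6 := gp_le_inSqrt r ((Y : ℝ) ^ ζ) ((n : ℝ) ^ ζ / 2) hv Y n hY3 h2 h3
    have h7 : ((gp r (4 * (Y : ℝ) ^ ((1 : ℝ) / 2)) ((Y : ℝ) ^ ζ) n).card : ℝ) ≤
        inSqrt r ((n : ℝ) ^ ζ / 2) n := by exact_mod_cast h6
    refine h7.trans_lt (h5.trans_le ?_)
    have hs1 : 1 ≤ sgs n := one_le_sgs n
    have h14 : Real.log Y ≤ Real.log n := Real.log_le_log (by linarith) h13.le
    have h16 : √(n : ℝ) ≤ 4 * (Y : ℝ) ^ ((1 : ℝ) / 2) := by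
      rw [← Real.sqrt_eq_rpow, Real.sqrt_le_left (by positivity), mul_pow,
        Real.sq_sqrt hYp.le]
      linarith
    have h15 : √(n : ℝ) / Real.log n ^ 2 ≤ 4 * (Y : ℝ) ^ ((1 : ℝ) / 2) / Real.log Y ^ 2 := by
      apply div_le_div₀ (by positivity) h16 (by positivity)
      exact pow_le_pow_left₀ hlY.le h14 2
    calc δ * sgs n * (√(n : ℝ) / Real.log n ^ 2) ≤
        δ * sgs n * (4 * (Y : ℝ) ^ ((1 : ℝ) / 2) / Real.log Y ^ 2) :=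
          mul_le_mul_of_nonneg_left h15 (by positivity)
      _ = δ * (4 * (Y : ℝ) ^ ((1 : ℝ) / 2)) / Real.log Y ^ 2 * sgs n := by ring)
  exact ⟨δ, C, hδ, hC, fun X hX => hcum X hX⟩

/-- **The window of Rivera, every even number.** -/
theorem sqrtAll : ∃ δ : ℝ, 0 < δ ∧ ∃ N0 : ℕ, ∀ N : ℕ, N0 ≤ N → Even N →
    δ * sgs N * (√(N : ℝ) / Real.log N ^ 2) ≤ (inSqrt 5 ((N : ℝ) ^ ((99 : ℝ) / 1000)) N : ℝ) := by
  have hJ := Pool.Agent.Y882.KW.cond_B (2499 / 10000) (20 / 31) (by norm_num) (by norm_num)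
    (by norm_num)
  obtain ⟨δ, hδ, Y0, H⟩ := ptw 5 (1 / 2) (2499 / 10000) (2 / 5 * (2499 / 10000))
    (9 / 10 * (2499 / 10000)) (20 / 31) (10001 / 10000) (by norm_num) (by norm_num) (by norm_num)
    (by norm_num) (by norm_num) (by norm_num) (by norm_num) (by norm_num) (by norm_num) hJ
    (by norm_num) (by norm_num)
  have ev1 : ∀ᶠ Y : ℕ in atTop, (2 : ℝ) ^ ((99 : ℝ) / 1000) ≤
      (Y : ℝ) ^ ((2 / 5 * (2499 / 10000) : ℝ) - 99 / 1000) :=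
    ((tendsto_rpow_atTop (by norm_num)).comp tendsto_natCast_atTop_atTop).eventually_ge_atTop _
  obtain ⟨Y1, hY1⟩ := eventually_atTop.1 ev1
  refine ⟨δ, hδ, 2 * (max (max Y0 Y1) 16), fun N hN hev => ?_⟩
  obtain ⟨Y, hYN⟩ := hev
  have hNY : N = 2 * Y := by omega
  have hYm : max (max Y0 Y1) 16 ≤ Y := by omega
  have hY0 : Y0 ≤ Y := ((le_max_left _ _).trans (le_max_left _ _)).trans hYm
  have e1 := hY1 Y (((le_max_right _ _).trans (le_max_left _ _)).trans hYm)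
  have hY3 : 16 ≤ Y := (le_max_right _ _).trans hYm
  have hYr : (16 : ℝ) ≤ Y := by exact_mod_cast hY3
  have hYp : (0 : ℝ) < Y := by linarith
  have hlY : 0 < Real.log Y := Real.log_pos (by linarith)
  have hs0 : 0 < (Y : ℝ) ^ ((1 : ℝ) / 2) := by positivity
  have hNr : (N : ℝ) = 2 * Y := by exact_mod_cast hNY
  have e3 : 4 * (Y : ℝ) ^ ((1 : ℝ) / 2) ≤ Y := by
    rw [← Real.sqrt_eq_rpow]
    have h4 : 4 ≤ √(Y : ℝ) := by
      rw [Real.le_sqrt' (by norm_num)]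
      linarith
    have := mul_le_mul_of_nonneg_right h4 (Real.sqrt_nonneg (Y : ℝ))
    rwa [Real.mul_self_sqrt (by linarith)] at this
  have g1 := H Y hY0 (4 * (Y : ℝ) ^ ((1 : ℝ) / 2)) (by linarith) e3 N (by omega) (by omega)
    ⟨Y, hYN⟩
  have hv : (N : ℝ) ^ ((99 : ℝ) / 1000) ≤ (Y : ℝ) ^ (2 / 5 * (2499 / 10000) : ℝ) := by
    rw [hNr, Real.mul_rpow (by norm_num) hYp.le]
    have h7 : (Y : ℝ) ^ (2 / 5 * (2499 / 10000) : ℝ) =
        (Y : ℝ) ^ ((2 / 5 * (2499 / 10000) : ℝ) - 99 / 1000) * (Y : ℝ) ^ ((99 : ℝ) / 1000) := by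
      rw [← Real.rpow_add hYp]
      congr 1
      ring
    rw [h7]
    exact mul_le_mul_of_nonneg_right e1 (by positivity)
  have h6 := gp_le_inSqrt 5 _ _ hv Y N hY3 (by omega) (by omega)
  have h7 : ((gp 5 (4 * (Y : ℝ) ^ ((1 : ℝ) / 2)) ((Y : ℝ) ^ (2 / 5 * (2499 / 10000) : ℝ)) N).card : ℝ) ≤
      inSqrt 5 ((N : ℝ) ^ ((99 : ℝ) / 1000)) N := by exact_mod_cast h6
  refine le_trans ?_ (g1.trans h7)
  have hs1 : 1 ≤ sgs N := one_le_sgs N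
  have h14 : Real.log Y ≤ Real.log N := Real.log_le_log (by linarith) (by rw [hNr]; linarith)
  have h16 : √(N : ℝ) ≤ 4 * (Y : ℝ) ^ ((1 : ℝ) / 2) := by
    rw [← Real.sqrt_eq_rpow, Real.sqrt_le_left (by positivity), mul_pow,
      Real.sq_sqrt hYp.le, hNr]
    linarith
  have h15 : √(N : ℝ) / Real.log N ^ 2 ≤ 4 * (Y : ℝ) ^ ((1 : ℝ) / 2) / Real.log Y ^ 2 := by
    apply div_le_div₀ (by positivity) h16 (by positivity)
    exact pow_le_pow_left₀ hlY.le h14 2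
  calc δ * sgs N * (√(N : ℝ) / Real.log N ^ 2) ≤
      δ * sgs N * (4 * (Y : ℝ) ^ ((1 : ℝ) / 2) / Real.log Y ^ 2) :=
        mul_le_mul_of_nonneg_left h15 (by positivity)
    _ = δ * (4 * (Y : ℝ) ^ ((1 : ℝ) / 2)) / Real.log Y ^ 2 * sgs N := by ring

end Pool.Agent.Y882.GX
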