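import Pool.Agent.Y882.GX.Pt2

/-! A small prime plus an almost prime: every even number, and few exceptions. -/

set_option autoImplicit false

namespace Pool.Agent.Y882.GX

open Finset Filter
open Pool.Agent.W23.DC
open Pool.Agent.Y882
open Pool.Agent.Y882.PX
open Pool.Agent.Y882.KW
open Pool.Agent.Y882.SI
open Pool.Agent.Y882.GW

open Classical in
/-- The number of the primes `p < N` with `N ^ θ / 4 < p < N ^ θ` such that `N - p` has at most `r`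
prime factors (counted with multiplicity), all of them at least `N ^ ζ / 2`. -/
noncomputable def smallP (r : ℕ) (θ ζ : ℝ) (N : ℕ) : ℕ :=
  ((range N).filter (fun p : ℕ => p.Prime ∧ (N : ℝ) ^ θ / 4 < p ∧ (p : ℝ) < (N : ℝ) ^ θ ∧
    (N - p).primeFactorsList.length ≤ r ∧
    ∀ q : ℕ, q.Prime → q ∣ (N - p) → (N : ℝ) ^ ζ / 2 ≤ q)).card

theorem pw_two (w : ℝ) (hw0 : 0 ≤ w) (hw1 : w ≤ 1) (Y n : ℕ) (h3 : n ≤ 2 * Y) :
    (n : ℝ) ^ w ≤ 2 * (Y : ℝ) ^ w := by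
  have h12 : (n : ℝ) ≤ 2 * Y := by exact_mod_cast h3
  calc (n : ℝ) ^ w ≤ (2 * (Y : ℝ)) ^ w := Real.rpow_le_rpow (by positivity) h12 hw0
    _ = 2 ^ w * (Y : ℝ) ^ w := Real.mul_rpow (by norm_num) (by positivity)
    _ ≤ 2 * (Y : ℝ) ^ w := by
        apply mul_le_mul_of_nonneg_right _ (by positivity)
        calc (2 : ℝ) ^ w ≤ 2 ^ (1 : ℝ) :=
              Real.rpow_le_rpow_of_exponent_le (by norm_num) hw1
          _ = 2 := Real.rpow_one _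

theorem gp_smallP (r : ℕ) (θ ζ : ℝ) (hθ0 : 0 < θ) (hθ1 : θ ≤ 1) (hζ0 : 0 ≤ ζ) (hζ1 : ζ ≤ 1)
    (Y n : ℕ) (hY : 1 ≤ Y) (h2 : Y < n) (h3 : n ≤ 2 * Y) :
    (gp r ((Y : ℝ) ^ θ) ((Y : ℝ) ^ ζ) n).card ≤ smallP r θ ζ n := by
  classical
  have hYr : (1 : ℝ) ≤ Y := by exact_mod_cast hY
  have h13 : (Y : ℝ) < n := by exact_mod_cast h2
  have h2θ := pw_two θ hθ0.le hθ1 Y n h3
  have h2ζ := pw_two ζ hζ0 hζ1 Y n h3
  have h3θ : (Y : ℝ) ^ θ ≤ (n : ℝ) ^ θ :=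
    Real.rpow_le_rpow (by positivity) h13.le (by linarith)
  unfold gp smallP
  apply card_le_card
  intro p hp
  rw [mem_filter] at hp ⊢
  obtain ⟨-, h8, h8', h9, h10, h11⟩ := hp
  have h14 : (p : ℝ) < n := by
    refine h9.trans (lt_of_le_of_lt ?_ h13)
    calc (Y : ℝ) ^ θ ≤ (Y : ℝ) ^ (1 : ℝ) :=
          Real.rpow_le_rpow_of_exponent_le (by linarith) hθ1
      _ = Y := Real.rpow_one _
  refine ⟨mem_range.2 (by exact_mod_cast h14), h8, by linarith, by linarith, h10,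
    fun q hq hqn => ?_⟩
  have := h11 q hq hqn
  linarith

/-- the main terms -/
theorem main_cmp (θ δ : ℝ) (hθ0 : 0 < θ) (hθ1 : θ ≤ 1) (hδ : 0 < δ) (Y n : ℕ) (hY : 3 ≤ Y)
    (h2 : Y < n) (h3 : n ≤ 2 * Y) :
    δ / 2 * sgs n * ((n : ℝ) ^ θ / Real.log n ^ 2) ≤
      δ * ((Y : ℝ) ^ θ) / Real.log Y ^ 2 * sgs n := by
  have hYr : (3 : ℝ) ≤ Y := by exact_mod_cast hY
  have hlY : 0 < Real.log Y := Real.log_pos (by linarith)
  have h13 : (Y : ℝ) < n := by exact_mod_cast h2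
  have hs1 : 1 ≤ sgs n := one_le_sgs n
  have h2θ := pw_two θ hθ0.le hθ1 Y n h3
  have h14 : Real.log Y ≤ Real.log n := Real.log_le_log (by linarith) h13.le
  have h15 : (n : ℝ) ^ θ / Real.log n ^ 2 ≤ 2 * (Y : ℝ) ^ θ / Real.log Y ^ 2 := by
    apply div_le_div₀ (by positivity) h2θ (by positivity)
    exact pow_le_pow_left₀ hlY.le h14 2
  calc δ / 2 * sgs n * ((n : ℝ) ^ θ / Real.log n ^ 2) ≤
      δ / 2 * sgs n * (2 * (Y : ℝ) ^ θ / Real.log Y ^ 2) :=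
        mul_le_mul_of_nonneg_left h15 (by positivity)
    _ = δ * ((Y : ℝ) ^ θ) / Real.log Y ^ 2 * sgs n := by ring

open Classical in
/-- **Few exceptions.** -/
theorem smallFew (r : ℕ) (θ τ ζ ε : ℝ) (hpar : Par r τ ζ) (hτ : τ < 1) (hθ0 : 0 < θ)
    (hθ1 : θ ≤ 1) (hε : 0 < ε) :
    ∃ δ C : ℝ, 0 < δ ∧ 0 < C ∧ ∀ X : ℕ, 1 ≤ X →
      (((Icc 1 X).filter (fun N : ℕ => Even N ∧
        (smallP r θ ζ N : ℝ) < δ * sgs N * ((N : ℝ) ^ θ / Real.log N ^ 2))).card : ℝ) ≤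
      C * (X : ℝ) ^ (2 * τ - θ + ε) := by
  have hζ0 : 0 < ζ := hpar.ζ_pos
  have hζ1 : ζ ≤ 1 := hpar.ζ_le hτ
  have hτ2 : 1 / 2 ≤ τ := by
    rcases hpar with ⟨_, h, _⟩ | ⟨_, h, _⟩ <;> linarith
  obtain ⟨δ, hδ, Y0, H⟩ := blkOne r θ τ ζ ε hpar hτ hθ0 hθ1 hε
  obtain ⟨C, hC, hcum⟩ := Pool.Agent.Y882.cum (fun N : ℕ => Even N ∧
    (smallP r θ ζ N : ℝ) < δ / 2 * sgs N * ((N : ℝ) ^ θ / Real.log N ^ 2))
    (2 * τ - θ + ε) (by linarith)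
    (max Y0 3) (by
    intro Y hY
    have hY0 : Y0 ≤ Y := (le_max_left _ _).trans hY
    have hY3 : 3 ≤ Y := (le_max_right _ _).trans hY
    have hYr : (3 : ℝ) ≤ Y := by exact_mod_cast hY3
    have hxY : (Y : ℝ) ^ θ ≤ Y := by
      calc (Y : ℝ) ^ θ ≤ (Y : ℝ) ^ (1 : ℝ) :=
            Real.rpow_le_rpow_of_exponent_le (by linarith) hθ1
        _ = Y := Real.rpow_one _
    refine le_trans ?_ (H Y hY0 ((Y : ℝ) ^ θ) le_rfl hxY)
    apply Nat.cast_le.2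
    apply card_le_card
    intro n hn
    rw [mem_filter, mem_Ioc] at hn ⊢
    obtain ⟨⟨h2, h3⟩, h4, h5⟩ := hn
    refine ⟨⟨h2, h3⟩, h4, ?_⟩
    have h7 : ((gp r ((Y : ℝ) ^ θ) ((Y : ℝ) ^ ζ) n).card : ℝ) ≤ smallP r θ ζ n := by
      exact_mod_cast gp_smallP r θ ζ hθ0 hθ1 hζ0.le hζ1 Y n (by omega) h2 h3
    exact h7.trans_lt (h5.trans_le (main_cmp θ δ hθ0 hθ1 hδ Y n hY3 h2 h3)))
  exact ⟨δ / 2, C, by positivity, hC, fun X hX => hcum X hX⟩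

/-- **Every even number.** -/
theorem smallEvery (r : ℕ) (θ τ : ℝ) (hτ0 : 0 < τ) (hτθ : τ < θ / 2) (hθ1 : θ ≤ 1)
    (hr : 10 / 9 < (r + 3 / 80) * τ) :
    ∃ δ : ℝ, 0 < δ ∧ ∃ N0 : ℕ, ∀ N : ℕ, N0 ≤ N → Even N →
      δ * sgs N * ((N : ℝ) ^ θ / Real.log N ^ 2) ≤ (smallP r θ (τ / 4) N : ℝ) := by
  have hθ0 : 0 < θ := by linarith
  have hJ := Pool.Agent.Y882.KW.cond_C τ (80 / 77) hτ0 (by norm_num) (by norm_num)
  obtain ⟨δ, hδ, Y0, H⟩ := ptw r θ τ (τ / 4) (9 / 10 * τ) (80 / 77) ((r + 3 / 80) * (9 / 10 * τ))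
    hθ0 hθ1 (by linarith) (by linarith) (by linarith) hτθ (by linarith) (by linarith)
    (by norm_num) hJ (by nlinarith) (by
      rw [mul_div_assoc, div_self (by positivity)]
      norm_num
      linarith)
  refine ⟨δ / 2, by positivity, 2 * (max Y0 3), fun N hN hev => ?_⟩
  obtain ⟨Y, hYN⟩ := hev
  have hNY : N = 2 * Y := by omega
  have hYm : max Y0 3 ≤ Y := by omega
  have hY0 : Y0 ≤ Y := (le_max_left _ _).trans hYm
  have hY3 : 3 ≤ Y := (le_max_right _ _).trans hYm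
  have hYr : (3 : ℝ) ≤ Y := by exact_mod_cast hY3
  have hxY : (Y : ℝ) ^ θ ≤ Y := by
    calc (Y : ℝ) ^ θ ≤ (Y : ℝ) ^ (1 : ℝ) :=
          Real.rpow_le_rpow_of_exponent_le (by linarith) hθ1
      _ = Y := Real.rpow_one _
  have g1 := H Y hY0 ((Y : ℝ) ^ θ) le_rfl hxY N (by omega) (by omega) ⟨Y, hYN⟩
  have h7 : ((gp r ((Y : ℝ) ^ θ) ((Y : ℝ) ^ (τ / 4)) N).card : ℝ) ≤ smallP r θ (τ / 4) N := by
    exact_mod_cast gp_smallP r θ (τ / 4) hθ0 hθ1 (by linarith) (by linarith) Y N (by omega)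
      (by omega) (by omega)
  exact (main_cmp θ δ hθ0 hθ1 hδ Y N hY3 (by omega) (by omega)).trans (g1.trans h7)

end Pool.Agent.Y882.GX
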