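import Pool.Agent.Y882.GW.Blk

/-! Squares of medium primes: pointwise for the small ones, on average for the large ones. -/

set_option autoImplicit false

namespace Pool.Agent.Y882.GX

open Finset Filter
open Pool.Agent.W23.DC
open Pool.Agent.Y882
open Pool.Agent.Y882.PX
open Pool.Agent.Y882.KW
open Pool.Agent.Y882.SI
open Pool.Agent.Y882.GW
open Pool.Agent.W378.DC.TMP

open Classical in
/-- small squares, pointwise -/
theorem med2 (ζ ξ : ℝ) (hζ : 0 < ζ) (hξ : ξ ≤ 1) : ∃ Y0 : ℕ, ∀ Y : ℕ, Y0 ≤ Y → ∀ X n : ℕ,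
      (((Icc 1 X).filter (fun m => SBad Y ζ ξ n m)).card : ℝ) ≤
        X * (2 / (Y : ℝ) ^ ζ) + (Y : ℝ) ^ ξ := by
  obtain ⟨Y0, H⟩ := pr_sq ζ ξ hζ hξ
  refine ⟨max Y0 2, fun Y hY X n => ?_⟩
  obtain ⟨g1, g2⟩ := H Y ((le_max_left _ _).trans hY)
  have hY2 : 2 ≤ Y := (le_max_right _ _).trans hY
  have hX0 : (0 : ℝ) ≤ X := Nat.cast_nonneg _
  have hsub : (Icc 1 X).filter (fun m => SBad Y ζ ξ n m) ⊆ (pr Y ζ ξ).biUnion
      (fun q => (Icc 1 X).filter (fun m : ℕ => ((q ^ 2 : ℕ) : ℤ) ∣ (m : ℤ) - n)) := by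
    intro m hm
    rw [mem_filter] at hm
    obtain ⟨hm1, q, hq, hqn⟩ := hm
    rw [mem_biUnion]
    refine ⟨q, hq, ?_⟩
    rw [mem_filter]
    refine ⟨hm1, ?_⟩
    rw [← neg_sub]
    exact hqn.neg_right
  calc (((Icc 1 X).filter (fun m => SBad Y ζ ξ n m)).card : ℝ) ≤
      ((∑ q ∈ pr Y ζ ξ, ((Icc 1 X).filter
        (fun m : ℕ => ((q ^ 2 : ℕ) : ℤ) ∣ (m : ℤ) - n)).card : ℕ) : ℝ) := by
        exact_mod_cast (card_le_card hsub).trans card_biUnion_le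
    _ ≤ ∑ q ∈ pr Y ζ ξ, (X * (1 / (q : ℝ) ^ 2) + 1) := by
        push_cast
        apply sum_le_sum
        intro q hq
        obtain ⟨hq1, _, hq3⟩ := pr_mem Y q ζ ξ hY2 hq
        have h5 := class_count (q ^ 2) (pow_pos hq1.pos 2) X n
        push_cast at h5
        refine h5.trans (le_of_eq ?_)
        ring
    _ = X * ∑ q ∈ pr Y ζ ξ, 1 / (q : ℝ) ^ 2 + (pr Y ζ ξ).card := by
        rw [sum_add_distrib, ← mul_sum, sum_const, nsmul_eq_mul, mul_one]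
    _ ≤ _ := add_le_add (mul_le_mul_of_nonneg_left g1 (by positivity)) g2

open Classical in
/-- multiples of `q` below `Z` -/
theorem mult_count (Z q : ℕ) (hq : 0 < q) (m A : ℕ) :
    (((Ioc A Z).filter (fun n : ℕ => m ≤ A ∧ ((q : ℕ) : ℤ) ∣ (n : ℤ) - m)).card : ℝ) ≤ Z / q := by
  by_cases hm : m ≤ A
  · have h1 : ((Ioc A Z).filter (fun n : ℕ => m ≤ A ∧ ((q : ℕ) : ℤ) ∣ (n : ℤ) - m)).card ≤
        ((Ioc 0 Z).filter (fun k => q ∣ k)).card := by
      apply card_le_card_of_injOn (fun n => n - m)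
      · intro n hn
        rw [Finset.mem_coe, mem_filter, mem_Ioc] at hn
        obtain ⟨⟨hn1, hn2⟩, _, hn3⟩ := hn
        change (n - m) ∈ ((Ioc 0 Z).filter (fun k => q ∣ k) : Finset ℕ)
        rw [mem_filter, mem_Ioc]
        refine ⟨⟨by omega, by omega⟩, ?_⟩
        have h2 : ((n - m : ℕ) : ℤ) = (n : ℤ) - m := by
          rw [Nat.cast_sub (by omega)]
        rw [← h2] at hn3
        exact_mod_cast hn3
      · intro a ha b hb hab
        rw [Finset.mem_coe, mem_filter, mem_Ioc] at ha hb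
        simp only at hab
        omega
    have h2 : ((Ioc 0 Z).filter (fun k => q ∣ k)).card = Z / q := by
      rw [Nat.Ioc_filter_dvd_card_eq_div]
    rw [h2] at h1
    calc _ ≤ ((Z / q : ℕ) : ℝ) := by exact_mod_cast h1
      _ ≤ (Z : ℝ) / q := Nat.cast_div_le
  · have : (Ioc A Z).filter (fun n : ℕ => m ≤ A ∧ ((q : ℕ) : ℤ) ∣ (n : ℤ) - m) = ∅ := by
      apply filter_eq_empty_iff.2
      intro n _ h
      exact hm h.1
    rw [this]
    simp only [card_empty, Nat.cast_zero]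
    positivity

open Classical in
/-- large squares, on average -/
theorem shift2 (ξ υ : ℝ) (hξ : 0 < ξ) (hυ : υ ≤ 1) : ∃ Y0 : ℕ, ∀ Y : ℕ, Y0 ≤ Y →
    ∀ (X : ℕ) (t : ℝ), 0 < X → X ≤ Y → 0 < t →
    (((Ioc Y (2 * Y)).filter (fun n => (X : ℝ) / t <
      (((Icc 1 X).filter (fun m => SBad Y ξ υ n m)).card : ℝ))).card : ℝ) ≤
      t * (4 * (Y : ℝ) ^ (1 - ξ)) := by
  obtain ⟨Y0, H⟩ := pr_sq ξ υ hξ hυ
  refine ⟨max Y0 2, fun Y hY X t hX hXY ht => ?_⟩
  obtain ⟨g1, g2⟩ := H Y ((le_max_left _ _).trans hY)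
  have hY2 : 2 ≤ Y := (le_max_right _ _).trans hY
  have hY0 : (0 : ℝ) < Y := by exact_mod_cast (by omega : 0 < Y)
  have hXr : (0 : ℝ) < X := by exact_mod_cast hX
  set A := (Ioc Y (2 * Y)).filter (fun n => (X : ℝ) / t <
      (((Icc 1 X).filter (fun m => SBad Y ξ υ n m)).card : ℝ)) with hA
  have h1 : (A.card : ℝ) * (X / t) ≤
      ∑ n ∈ Ioc Y (2 * Y), (((Icc 1 X).filter (fun m => SBad Y ξ υ n m)).card : ℝ) := by
    calc (A.card : ℝ) * (X / t) = ∑ n ∈ A, (X / t : ℝ) := by rw [sum_const, nsmul_eq_mul]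
      _ ≤ ∑ n ∈ A, (((Icc 1 X).filter (fun m => SBad Y ξ υ n m)).card : ℝ) := by
          apply sum_le_sum
          intro n hn
          rw [hA, mem_filter] at hn
          exact hn.2.le
      _ ≤ _ := sum_le_sum_of_subset_of_nonneg (filter_subset _ _) (fun _ _ _ => Nat.cast_nonneg _)
  have h2 : ∑ n ∈ Ioc Y (2 * Y), (((Icc 1 X).filter (fun m => SBad Y ξ υ n m)).card : ℝ) ≤
      X * (4 * (Y : ℝ) ^ (1 - ξ)) := by
    have h3 : ∑ n ∈ Ioc Y (2 * Y), (((Icc 1 X).filter (fun m => SBad Y ξ υ n m)).card : ℝ) =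
        ∑ m ∈ Icc 1 X, (((Ioc Y (2 * Y)).filter (fun n => SBad Y ξ υ n m)).card : ℝ) := by
      simp_rw [card_filter]
      push_cast
      rw [sum_comm]
    rw [h3]
    have h4 : ∀ m ∈ Icc 1 X, (((Ioc Y (2 * Y)).filter (fun n => SBad Y ξ υ n m)).card : ℝ) ≤
        4 * (Y : ℝ) ^ (1 - ξ) := by
      intro m hm
      rw [mem_Icc] at hm
      have hsub : (Ioc Y (2 * Y)).filter (fun n => SBad Y ξ υ n m) ⊆ (pr Y ξ υ).biUnion
          (fun q => (Ioc Y (2 * Y)).filter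
            (fun n : ℕ => m ≤ Y ∧ ((q ^ 2 : ℕ) : ℤ) ∣ (n : ℤ) - m)) := by
        intro n hn
        rw [mem_filter] at hn
        obtain ⟨hn1, q, hq, hqn⟩ := hn
        rw [mem_biUnion]
        exact ⟨q, hq, by rw [mem_filter]; exact ⟨hn1, by omega, hqn⟩⟩
      calc (((Ioc Y (2 * Y)).filter (fun n => SBad Y ξ υ n m)).card : ℝ) ≤
          ((∑ q ∈ pr Y ξ υ, ((Ioc Y (2 * Y)).filter
            (fun n : ℕ => m ≤ Y ∧ ((q ^ 2 : ℕ) : ℤ) ∣ (n : ℤ) - m)).card : ℕ) : ℝ) := by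
            exact_mod_cast (card_le_card hsub).trans card_biUnion_le
        _ ≤ ∑ q ∈ pr Y ξ υ, (2 * Y) * (1 / (q : ℝ) ^ 2) := by
            push_cast
            apply sum_le_sum
            intro q hq
            obtain ⟨hq1, _, _⟩ := pr_mem Y q ξ υ hY2 hq
            have h5 := mult_count (2 * Y) (q ^ 2) (pow_pos hq1.pos 2) m Y
            push_cast at h5
            refine h5.trans (le_of_eq ?_)
            ring
        _ = (2 * Y) * ∑ q ∈ pr Y ξ υ, 1 / (q : ℝ) ^ 2 := by rw [← mul_sum]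
        _ ≤ (2 * Y) * (2 / (Y : ℝ) ^ ξ) := mul_le_mul_of_nonneg_left g1 (by positivity)
        _ = _ := by
            rw [Real.rpow_sub hY0, Real.rpow_one]
            ring
    calc ∑ m ∈ Icc 1 X, (((Ioc Y (2 * Y)).filter (fun n => SBad Y ξ υ n m)).card : ℝ) ≤
        ∑ m ∈ Icc 1 X, (4 * (Y : ℝ) ^ (1 - ξ)) := sum_le_sum h4
      _ = _ := by
          rw [sum_const, nsmul_eq_mul, Nat.card_Icc, Nat.add_sub_cancel]
  have h6 := h1.trans h2
  have h7 : (A.card : ℝ) * X ≤ (t * (4 * (Y : ℝ) ^ (1 - ξ))) * X := by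
    rw [mul_div_assoc', div_le_iff₀ ht] at h6
    linarith
  exact le_of_mul_le_mul_right h7 hXr

end Pool.Agent.Y882.GX
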